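import Pool.Agent.V8H14.MHA.Main
import Pool.Agent.V8H61.MC.CountEq
import Pool.Agent.V8H61.MD.Bridge

/-!
# Magnitude homology of real hyperplane arrangements
-/

set_option autoImplicit false

namespace Pool.Agent.V8H14.MHA

open Pool.Agent.R142

/-- The magnitude homology of an arrangement is free, with basis indexed by the pairs of a chamber
and a multichain of its faces. -/
theorem mh_free {d : ℕ} (A : Finset (Submodule ℝ (Fin d → ℝ))) (hA : Arr.IsArrangement A)
    (k l : ℕ) : Finite (Idx (formsOf A) k l) ∧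
      Nonempty (MagHom.MH (Arr.topeGraph A) k l ≃ₗ[ℤ] (Idx (formsOf A) k l →₀ ℤ)) :=
  Pool.Agent.V8H61.MD.mh_equiv A hA ⟨main_bad _, main_good _⟩ k l

/-- It only depends on the intersection lattice. -/
theorem mh_lattice {d d' : ℕ} (A : Finset (Submodule ℝ (Fin d → ℝ)))
    (A' : Finset (Submodule ℝ (Fin d' → ℝ))) (hA : Arr.IsArrangement A) (hA' : Arr.IsArrangement A')
    (e : Lat A ≃o Lat A') (k l : ℕ) :
    Nonempty (MagHom.MH (Arr.topeGraph A) k l ≃+ MagHom.MH (Arr.topeGraph A') k l) := by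
  obtain ⟨h1, ⟨e1⟩⟩ := mh_free A hA k l
  obtain ⟨h2, ⟨e2⟩⟩ := mh_free A' hA' k l
  have hc := Pool.Agent.V8H61.MC.count_eq A A' hA hA' e k l
  have e3 : Idx (formsOf A) k l ≃ Idx (formsOf A') k l := by
    have := Fintype.ofFinite (Idx (formsOf A) k l)
    have := Fintype.ofFinite (Idx (formsOf A') k l)
    exact Fintype.equivOfCardEq (by rwa [Nat.card_eq_fintype_card, Nat.card_eq_fintype_card] at hc)
  exact ⟨((e1.trans (Finsupp.domLCongr e3)).trans e2.symm).toAddEquiv⟩

theorem mh_torsionfree {d : ℕ} (A : Finset (Submodule ℝ (Fin d → ℝ))) (hA : Arr.IsArrangement A)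
    (k l : ℕ) : Module.Free ℤ (MagHom.MH (Arr.topeGraph A) k l) ∧
      Module.Finite ℤ (MagHom.MH (Arr.topeGraph A) k l) ∧
      ∀ (n : ℤ) (a : MagHom.MH (Arr.topeGraph A) k l), n ≠ 0 → n • a = 0 → a = 0 := by
  obtain ⟨h1, ⟨e1⟩⟩ := mh_free A hA k l
  refine ⟨Module.Free.of_equiv e1.symm, Module.Finite.equiv e1.symm, ?_⟩
  intro n a hn h
  have h2 : n • e1 a = 0 := by rw [← map_smul, h, map_zero]
  have h3 : e1 a = 0 := (smul_eq_zero.1 h2).resolve_left hn
  exact (LinearEquiv.map_eq_zero_iff e1).1 h3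

end Pool.Agent.V8H14.MHA
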