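import Pool.Agent.V8H14.MHA.Join

/-!
# Acyclic posets
-/

set_option autoImplicit false

namespace Pool.Agent.V8H14.MHA

open Cx

/-- The one-cell complex. -/
noncomputable def pt : Cx Unit where
  b _ := 0
  deg _ := 0
  sq _ := by simp
  hdeg x y hy := by simp at hy

variable {Φ : Type} [PartialOrder Φ]

/-- The chains of `P`, over the one-cell complex. -/
def ch (P : Set Φ) : Set (List Φ × Unit) := {p | p.1 ∈ chains P}

theorem acy_iff_pt (P : Set Φ) : Acy P ↔ (J Φ pt).Ac (ch P) := by
  have h : ((fun l : List Φ => (l ++ [], ())) '' chains P) = ch P := by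
    ext p
    constructor
    · rintro ⟨l, hl, rfl⟩
      show l ++ [] ∈ chains P
      rw [List.append_nil]; exact hl
    · intro hp
      refine ⟨p.1, hp, ?_⟩
      show (p.1 ++ [], ()) = p
      rw [List.append_nil]
  rw [acy_iff]
  have := ac_map (C := L Φ) (C' := J Φ pt) (fun l => (l ++ [], ())) (fun p => p.1)
    (fun l => by simp) (chains P) 1 (by norm_num) 0 (fun l _ => by
      show (l ++ []).length + 0 = l.length + 0
      rw [List.append_nil]) ?_
  · rw [this, h]
  · intro l hl
    rw [h, one_smul]
    have e1 : res (chains P) ((L Φ).b l) = bL l := by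
      refine res_of_mem ?_
      rw [mem_sup_iff]
      exact fun a ha => closed_chains P l hl a ha
    rw [e1]
    show res (ch P) (pt.bJ (l ++ []) ()) = _
    rw [bJ_append]
    have e2 : pt.bJ ([] : List Φ) () = 0 := by
      show Finsupp.mapDomain _ (0 : Unit →₀ ℤ) = 0
      exact Finsupp.mapDomain_zero
    rw [e2, Finsupp.mapDomain_zero, smul_zero, add_zero]
    refine res_of_mem ?_
    classical
    rw [mem_sup_iff]
    intro a ha
    obtain ⟨b, hb, rfl⟩ := Finset.mem_image.1 (Finsupp.mapDomain_support ha)
    show b ++ [] ∈ chains P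
    rw [List.append_nil]
    exact closed_chains P l hl b hb

theorem closed_ch (P : Set Φ) : (J Φ pt).Closed (ch P) := by
  intro p hp q hq
  rcases pt.supp_bJ hq with ⟨-, h2, -⟩ | ⟨-, h2⟩
  · exact chains_sublist hp h2
  · exact absurd h2 (by simp [pt])

theorem supp_pt {p q : List Φ × Unit} (hq : q ∈ ((J Φ pt).b p).support) :
    q.1.Sublist p.1 ∧ q.1.length + 1 = p.1.length := by
  rcases pt.supp_bJ hq with ⟨-, h2, h3⟩ | ⟨-, h2⟩
  · exact ⟨h2, h3⟩
  · exact absurd h2 (by simp [pt])

/-- A poset with a greatest element is acyclic. -/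
theorem acy_of_greatest {P : Set Φ} {m : Φ} (hm : m ∈ P) (h : ∀ x ∈ P, x ≤ m) : Acy P := by
  classical
  let g : List Φ → (List Φ →₀ ℤ) := fun l => if l.head? = some m then 0 else Finsupp.single (m :: l) 1
  let H : (List Φ →₀ ℤ) →ₗ[ℤ] (List Φ →₀ ℤ) := Finsupp.linearCombination ℤ g
  have Hs : ∀ l, H (Finsupp.single l 1) = g l := fun l => by
    simp [H]
  have notm : ∀ l ∈ chains P, l.head? ≠ some m → m ∉ l := by
    intro l hl hh hml
    cases l with
    | nil => simp at hml
    | cons a l =>
      simp only [List.head?_cons, ne_eq, Option.some.injEq] at hh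
      rcases List.mem_cons.1 hml with h1 | h1
      · exact hh h1.symm
      · have h2 : m < a := (List.pairwise_cons.1 hl.1).1 m h1
        have h3 : a ≤ m := h a (hl.2 a (by simp))
        exact absurd (h2.trans_le h3) (lt_irrefl _)
  have hcons : ∀ y : List Φ →₀ ℤ, (∀ l ∈ y.support, m ∉ l) → H y = consL m y := by
    intro y hy
    induction y using Finsupp.induction with
    | zero => simp
    | single_add l n f hl hn ih =>
      have hsup : (Finsupp.single l n + f).support = insert l f.support := by
        rw [Finsupp.support_add_eq, Finsupp.support_single_ne_zero l hn]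
        · rfl
        · rw [Finsupp.support_single_ne_zero l hn]
          simpa using hl
      rw [map_add, map_add, ih fun l' hl' => hy l' (by rw [hsup]; exact Finset.mem_insert_of_mem hl')]
      congr 1
      have h1 : m ∉ l := hy l (by rw [hsup]; exact Finset.mem_insert_self _ _)
      have h2 : l.head? ≠ some m := by
        cases l with
        | nil => simp
        | cons a l =>
          simp only [List.head?_cons, ne_eq, Option.some.injEq]
          rintro rfl
          exact h1 (by simp)
      have h3 : Finsupp.single l n = n • Finsupp.single l (1 : ℤ) := by simp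
      rw [h3, map_smul, map_smul, Hs]
      simp only [g, if_neg h2]
      rw [consL, Finsupp.lmapDomain_apply, Finsupp.mapDomain_single]
  have hkill : ∀ y : List Φ →₀ ℤ, H (consL m y) = 0 := by
    intro y
    induction y using Finsupp.induction_linear with
    | zero => simp
    | add a b ha hb => rw [map_add, map_add, ha, hb, add_zero]
    | single l n =>
      rw [consL, Finsupp.lmapDomain_apply, Finsupp.mapDomain_single]
      have h3 : Finsupp.single (m :: l) n = n • Finsupp.single (m :: l) (1 : ℤ) := by simp
      rw [h3, map_smul, Hs]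
      simp [g]
  have key : ∀ l ∈ chains P, dL (g l) + H (bL l) = Finsupp.single l 1 := by
    intro l hl
    by_cases hh : l.head? = some m
    · cases l with
      | nil => simp at hh
      | cons a l =>
        simp only [List.head?_cons, Option.some.injEq] at hh
        subst hh
        have h1 : g (a :: l) = 0 := by simp [g]
        rw [h1, map_zero, zero_add, bL, map_sub, hkill, sub_zero, Hs]
        have h2 : l.head? ≠ some a := by
          cases l with
          | nil => simp
          | cons b l =>
            simp only [List.head?_cons, ne_eq, Option.some.injEq]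
            rintro rfl
            exact lt_irrefl _ ((List.pairwise_cons.1 hl.1).1 b (by simp))
        simp only [g, if_neg h2]
    · have h1 : g l = Finsupp.single (m :: l) 1 := by simp only [g, if_neg hh]
      have h2 : dL (Finsupp.single (m :: l) (1 : ℤ)) = Finsupp.single l 1 - consL m (bL l) := by
        rw [dL, Finsupp.linearCombination_single, one_smul, bL]
      rw [h1, h2, hcons (bL l)]
      · abel
      · intro l' hl' hml'
        exact notm l hl hh ((supp_bL hl').1.subset hml')
  have key2 : ∀ x ∈ Finsupp.supported ℤ ℤ (chains P), dL (H x) + H (dL x) = x := by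
    intro x hx
    have hx' : x ∈ Submodule.span ℤ ((fun a => Finsupp.single a (1 : ℤ)) '' (chains P)) := by
      rwa [← Finsupp.supported_eq_span_single]
    clear hx
    induction hx' using Submodule.span_induction with
    | mem y hy =>
      obtain ⟨l, hl, rfl⟩ := hy
      have : dL (Finsupp.single l (1 : ℤ)) = bL l := by
        rw [dL, Finsupp.linearCombination_single, one_smul]
      simp only [Hs, this]
      exact key l hl
    | zero => simp
    | add y z _ _ hy hz =>
      rw [map_add, map_add, map_add, map_add]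
      nth_rw 3 [← hy]
      nth_rw 3 [← hz]
      abel
    | smul a y _ hy => rw [map_smul, map_smul, map_smul, map_smul, ← smul_add, hy]
  intro x hx hd
  refine ⟨H x, ?_, ?_⟩
  · have hx' : x ∈ Submodule.span ℤ ((fun a => Finsupp.single a (1 : ℤ)) '' (chains P)) := by
      rwa [← Finsupp.supported_eq_span_single]
    clear hx hd
    induction hx' using Submodule.span_induction with
    | mem y hy =>
      obtain ⟨l, hl, rfl⟩ := hy
      simp only [Hs]
      simp only [g]
      split_ifs with hh
      · exact Submodule.zero_mem _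
      · refine Finsupp.single_mem_supported ℤ _ ⟨List.pairwise_cons.2 ⟨?_, hl.1⟩, ?_⟩
        · intro a ha
          refine lt_of_le_of_ne (h a (hl.2 a ha)) ?_
          rintro rfl
          exact notm l hl hh ha
        · intro a ha
          rcases List.mem_cons.1 ha with rfl | h1
          · exact hm
          · exact hl.2 a h1
    | zero => simp
    | add y z _ _ hy hz =>
      rw [map_add]
      exact Submodule.add_mem _ hy hz
    | smul a y _ hy =>
      rw [map_smul]
      exact Submodule.smul_mem _ _ hy
  · have := key2 x hx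
    rw [hd, map_zero, add_zero] at this
    exact this

theorem acy_singleton (m : Φ) : Acy ({m} : Set Φ) :=
  acy_of_greatest (Set.mem_singleton m) fun x hx => le_of_eq hx

theorem split_decr {l : List Φ} (hl : l.Pairwise (fun a b => b < a)) {p : Φ} (hp : p ∈ l) :
    ∃ l₁ l₂, l = l₁ ++ p :: l₂ ∧ (∀ x ∈ l₁, p < x) ∧ (∀ x ∈ l₂, x < p) := by
  obtain ⟨l₁, l₂, rfl⟩ := List.append_of_mem hp
  refine ⟨l₁, l₂, rfl, ?_, ?_⟩
  · intro x hx
    exact (List.pairwise_append.1 hl).2.2 x hx p (by simp)
  · intro x hx
    exact (List.pairwise_cons.1 (List.pairwise_append.1 hl).2.1).1 x hx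

open Classical in
/-- The part of a list from the first occurrence of `p` on. -/
noncomputable def from' (p : Φ) (l : List Φ) : List Φ := l.dropWhile fun x => decide (x ≠ p)

theorem from'_eq {p : Φ} {l₁ l₂ : List Φ} (h : ∀ x ∈ l₁, x ≠ p) :
    from' p (l₁ ++ p :: l₂) = p :: l₂ := by
  classical
  rw [from', List.dropWhile_append_of_pos]
  · simp
  · intro x hx
    simpa using h x hx

/-- Adding a point whose upper link is acyclic. -/
theorem acy_insert {P : Set Φ} {p : Φ} (hp : p ∉ P) (h : Acy P) (hl : Acy {x | x ∈ P ∧ p < x}) :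
    Acy (insert p P) := by
  classical
  rw [acy_iff_pt] at h ⊢
  have hcl := closed_ch (insert p P)
  have hsp : Split (J Φ pt) (ch (insert p P)) (ch P) {q | q ∈ ch (insert p P) ∧ p ∈ q.1} := by
    refine ⟨hcl.lc, ?_, ?_, ?_⟩
    · intro q
      constructor
      · intro hq
        by_cases h1 : p ∈ q.1
        · exact Or.inr ⟨hq, h1⟩
        · refine Or.inl ⟨hq.1, fun x hx => ?_⟩
          rcases hq.2 x hx with h2 | h2
          · rw [h2] at hx
            exact absurd hx h1
          · exact h2
      · rintro (h1 | h1)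
        · exact chains_mono (Set.subset_insert p P) h1
        · exact h1.1
    · rintro q h1 ⟨_, h2⟩
      exact hp (h1.2 p h2)
    · rintro q hq r hr ⟨_, h2⟩
      exact hp (hq.2 p ((supp_pt hr).1.subset h2))
  refine hsp.ac h ?_
  -- the cells containing `p`
  set S : Set (List Φ × Unit) := {q | q ∈ ch (insert p P) ∧ p ∈ q.1} with hS
  have lcS : (J Φ pt).LC S := by
    have : S = ch (insert p P) \ {q | p ∉ q.1} := by
      ext q
      constructor
      · rintro ⟨h1, h2⟩
        exact ⟨h1, fun h3 => h3 h2⟩
      · rintro ⟨h1, h2⟩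
        exact ⟨h1, not_not.1 h2⟩
    rw [this]
    refine hcl.lc.diff ?_
    intro q hq r hr h3
    exact hq ((supp_pt hr).1.subset h3)
  have hform : ∀ q ∈ S, ∃ l₁ l₂, q.1 = l₁ ++ p :: l₂ ∧ (∀ x ∈ l₁, p < x) ∧ (∀ x ∈ l₂, x < p) ∧
      from' p q.1 = p :: l₂ := by
    rintro q ⟨h1, h2⟩
    obtain ⟨l₁, l₂, h3, h4, h5⟩ := split_decr h1.1 h2
    exact ⟨l₁, l₂, h3, h4, h5, by rw [h3, from'_eq fun x hx => (h4 x hx).ne']⟩
  refine ac_fibers lcS (fun q => from' p q.1) List.length ?_ ?_
  · intro q hq r hr hrS
    obtain ⟨l₁, l₂, h1, h2, h3, h4⟩ := hform q hq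
    obtain ⟨m₁, m₂, g1, g2, g3, g4⟩ := hform r hrS
    obtain ⟨s1, s2⟩ := supp_pt hr
    simp only [h4, g4]
    -- `m₂` is a sublist of `l₂`
    have h5 : (p :: m₂).Sublist (p :: l₂) := by
      have hf : ∀ k₁ k₂ : List Φ, (∀ x ∈ k₁, p < x) → (∀ x ∈ k₂, x < p) →
          (k₁ ++ p :: k₂).filter (fun x => decide (x < p)) = k₂ := by
        intro k₁ k₂ a1 a2
        rw [List.filter_append, List.filter_cons]
        have b1 : k₁.filter (fun x => decide (x < p)) = [] := by
          rw [List.filter_eq_nil_iff]
          intro x hx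
          simpa using fun h' => lt_asymm (a1 x hx) h'
        have b2 : k₂.filter (fun x => decide (x < p)) = k₂ := by
          rw [List.filter_eq_self]
          intro x hx
          simpa using a2 x hx
        rw [b1, b2]
        simp
      have := s1.filter (fun x => decide (x < p))
      rw [h1, g1, hf _ _ h2 h3, hf _ _ g2 g3] at this
      exact this.cons_cons p
    rcases h5.length_le.lt_or_eq with h6 | h6
    · exact Or.inr h6
    · exact Or.inl (h5.eq_of_length h6)
  · intro w
    by_cases hw : ∃ l₂ ∈ chains P, (∀ x ∈ l₂, x < p) ∧ w = p :: l₂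
    · obtain ⟨l₂, hl₂, hlt, rfl⟩ := hw
      have := ac_append (Φ := Φ) pt hl (p :: l₂) (fun a m' hm ha => by
        rw [List.cons.injEq] at hm
        rw [← hm.1] at ha
        exact lt_irrefl _ ha.2) ()
      convert this using 1
      ext q
      constructor
      · rintro ⟨hq, hf⟩
        obtain ⟨m₁, m₂, g1, g2, g3, g4⟩ := hform q hq
        have hf' : from' p q.1 = p :: l₂ := hf
        rw [g4] at hf'
        refine ⟨m₁, ⟨?_, ?_⟩, ?_⟩
        · have := hq.1.1
          rw [g1] at this
          exact (List.pairwise_append.1 this).1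
        · intro x hx
          refine ⟨?_, g2 x hx⟩
          rcases hq.1.2 x (by rw [g1]; simp [hx]) with h1 | h1
          · exact absurd h1 (g2 x hx).ne'
          · exact h1
        · show (m₁ ++ p :: l₂, ()) = q
          rw [← hf', ← g1]
      · rintro ⟨l, hl', rfl⟩
        refine ⟨⟨⟨?_, ?_⟩, ?_⟩, ?_⟩
        · rw [List.pairwise_append]
          refine ⟨hl'.1, List.pairwise_cons.2 ⟨hlt, hl₂.1⟩, ?_⟩
          intro a ha b hb
          rcases List.mem_cons.1 hb with rfl | hb
          · exact (hl'.2 a ha).2
          · exact (hlt b hb).trans (hl'.2 a ha).2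
        · intro x hx
          rcases List.mem_append.1 hx with h1 | h1
          · exact Set.mem_insert_of_mem _ (hl'.2 x h1).1
          · rcases List.mem_cons.1 h1 with rfl | h1
            · exact Set.mem_insert _ _
            · exact Set.mem_insert_of_mem _ (hl₂.2 x h1)
        · simp
        · show from' p (l ++ p :: l₂) = p :: l₂
          exact from'_eq fun x hx => (hl'.2 x hx).2.ne'
    · convert ac_empty (C := J Φ pt) using 1
      ext q
      constructor
      · rintro ⟨hq, hf⟩
        obtain ⟨m₁, m₂, g1, g2, g3, g4⟩ := hform q hq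
        have hf' : from' p q.1 = w := hf
        rw [g4] at hf'
        refine absurd ⟨m₂, ⟨?_, ?_⟩, g3, hf'.symm⟩ hw
        · have := hq.1.1
          rw [g1] at this
          exact (List.pairwise_cons.1 (List.pairwise_append.1 this).2.1).2
        · intro x hx
          rcases hq.1.2 x (by rw [g1]; simp [hx]) with h1 | h1
          · exact absurd h1 (g3 x hx).ne
          · exact h1
      · intro hq
        exact absurd hq (Set.notMem_empty q)

/-- The lower link of a maximal point. -/
theorem acy_link {P : Set Φ} {p : Φ} (hp : p ∉ P) (h1 : Acy (insert p P)) (h2 : Acy P)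
    (hmax : ∀ x ∈ P, ¬ p < x) : Acy {x | x ∈ P ∧ x < p} := by
  classical
  rw [acy_iff_pt] at h1 h2 ⊢
  have hcl := closed_ch (insert p P)
  have hsp : Split (J Φ pt) (ch (insert p P)) (ch P)
      ((fun q : List Φ × Unit => (p :: q.1, q.2)) '' ch {x | x ∈ P ∧ x < p}) := by
    refine ⟨hcl.lc, ?_, ?_, ?_⟩
    · intro q
      constructor
      · intro hq
        by_cases h1 : p ∈ q.1
        · right
          obtain ⟨l₁, l₂, h3, h4, h5⟩ := split_decr hq.1 h1
          have h6 : l₁ = [] := by
            cases l₁ with
            | nil => rfl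
            | cons a l₁ =>
              have h7 : p < a := h4 a (by simp)
              rcases hq.2 a (by rw [h3]; simp) with h8 | h8
              · rw [h8] at h7
                exact absurd h7 (lt_irrefl _)
              · exact absurd h7 (hmax a h8)
          subst h6
          refine ⟨(l₂, q.2), ⟨?_, ?_⟩, ?_⟩
          · have := hq.1
            rw [h3] at this
            exact (List.pairwise_cons.1 this).2
          · intro x hx
            refine ⟨?_, h5 x hx⟩
            rcases hq.2 x (by rw [h3]; simp [hx]) with h8 | h8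
            · exact absurd h8 (h5 x hx).ne
            · exact h8
          · show (p :: l₂, q.2) = q
            rw [← List.nil_append (p :: l₂), ← h3]
        · refine Or.inl ⟨hq.1, fun x hx => ?_⟩
          rcases hq.2 x hx with h2 | h2
          · rw [h2] at hx
            exact absurd hx h1
          · exact h2
      · rintro (h1 | ⟨r, hr, rfl⟩)
        · exact chains_mono (Set.subset_insert p P) h1
        · refine ⟨List.pairwise_cons.2 ⟨fun x hx => (hr.2 x hx).2, hr.1⟩, ?_⟩
          intro x hx
          rcases List.mem_cons.1 hx with rfl | h3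
          · exact Set.mem_insert _ _
          · exact Set.mem_insert_of_mem _ (hr.2 x h3).1
    · rintro q h1 ⟨r, _, rfl⟩
      exact hp (h1.2 p (by simp))
    · rintro q hq r hr ⟨t, _, rfl⟩
      exact hp (hq.2 p ((supp_pt hr).1.subset (by simp)))
  have h3 := hsp.ac1 h1 h2
  have h4 := hb_cons (Φ := Φ) pt p (ch {x | x ∈ P ∧ x < p}) (by
    rintro q hq ⟨r, _, rfl⟩
    exact lt_irrefl _ (hq.2 p (by simp)).2) Empty 0
  exact (h4.2 (h3.hb _ _)).ac

/-- Mayer-Vietoris for two down-sets of the union. -/
theorem acy_union {U₁ U₂ : Set Φ} (h1 : ∀ x ∈ U₁, ∀ y ∈ U₂, y ≤ x → y ∈ U₁)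
    (h2 : ∀ x ∈ U₂, ∀ y ∈ U₁, y ≤ x → y ∈ U₂) (a1 : Acy U₁) (a2 : Acy U₂) (a12 : Acy (U₁ ∩ U₂)) :
    Acy (U₁ ∪ U₂) := by
  classical
  rw [acy_iff_pt] at a1 a2 a12 ⊢
  have hc := closed_ch (U₁ ∪ U₂)
  have h3 : ∀ q, q ∈ ch (U₁ ∪ U₂) → q ∉ ch U₁ → q ∈ ch U₂ := by
    intro q hq hq1
    by_contra hq2
    -- the head of the list lies in `U₁` or `U₂`
    obtain ⟨l, u⟩ := q
    cases l with
    | nil => exact hq1 ⟨List.Pairwise.nil, by simp⟩
    | cons a l =>
      have hlt := (List.pairwise_cons.1 hq.1).1
      rcases hq.2 a (by simp) with ha | ha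
      · refine hq1 ⟨hq.1, fun x hx => ?_⟩
        rcases List.mem_cons.1 hx with rfl | hx'
        · exact ha
        · rcases hq.2 x hx with h | h
          · exact h
          · exact h1 a ha x h (hlt x hx').le
      · refine hq2 ⟨hq.1, fun x hx => ?_⟩
        rcases List.mem_cons.1 hx with rfl | hx'
        · exact ha
        · rcases hq.2 x hx with h | h
          · exact h2 a ha x h (hlt x hx').le
          · exact h
  have s2 : Split (J Φ pt) (ch U₂) (ch (U₁ ∩ U₂)) (ch U₂ \ ch U₁) := by
    refine ⟨(closed_ch U₂).lc, ?_, ?_, ?_⟩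
    · intro q
      constructor
      · intro hq
        by_cases h : q ∈ ch U₁
        · exact Or.inl ⟨hq.1, fun x hx => ⟨h.2 x hx, hq.2 x hx⟩⟩
        · exact Or.inr ⟨hq, h⟩
      · rintro (h | h)
        · exact ⟨h.1, fun x hx => (h.2 x hx).2⟩
        · exact h.1
    · rintro q h ⟨_, h'⟩
      exact h' ⟨h.1, fun x hx => (h.2 x hx).1⟩
    · rintro q h r hr ⟨_, h'⟩
      have := closed_ch (U₁ ∩ U₂) q h r hr
      exact h' ⟨this.1, fun x hx => (this.2 x hx).1⟩
  have s1 : Split (J Φ pt) (ch (U₁ ∪ U₂)) (ch U₁) (ch U₂ \ ch U₁) := by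
    refine ⟨hc.lc, ?_, ?_, ?_⟩
    · intro q
      constructor
      · intro hq
        by_cases h : q ∈ ch U₁
        · exact Or.inl h
        · exact Or.inr ⟨h3 q hq h, h⟩
      · rintro (h | h)
        · exact chains_mono Set.subset_union_left h
        · exact chains_mono Set.subset_union_right h.1
    · rintro q h ⟨_, h'⟩
      exact h' h
    · rintro q h r hr ⟨_, h'⟩
      exact h' (closed_ch U₁ q h r hr)
  exact s1.ac a1 (s2.ac1 a2 a12)

end Pool.Agent.V8H14.MHA
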