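import Mathlib

/-!
# Sign vectors, faces of a real arrangement, order complexes (definitions)
-/

set_option autoImplicit false

namespace Pool.Agent.V8H14.MHA

/-! ## Sign vectors -/

/-- Sign vectors indexed by `ι` (with the face order, see the instance below). -/
def SV (ι : Type) : Type := ι → SignType

@[ext] theorem SV.ext {ι : Type} {σ τ : SV ι} (h : ∀ i, σ i = τ i) : σ = τ := funext h

/-- The face order: `σ ≤ τ` iff each `σ i` is `0` or equal to `τ i`. -/
instance {ι : Type} : PartialOrder (SV ι) where
  le σ τ := ∀ i, σ i = 0 ∨ σ i = τ i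
  le_refl σ i := Or.inr rfl
  le_trans a b c h1 h2 i := by
    rcases h1 i with h | h
    · exact Or.inl h
    · rcases h2 i with h' | h'
      · exact Or.inl (h.trans h')
      · exact Or.inr (h.trans h')
  le_antisymm a b h1 h2 := by
    funext i
    rcases h1 i with h | h
    · rcases h2 i with h' | h'
      · rw [h, h']
      · exact h'.symm
    · exact h

theorem SV.le_def {ι : Type} {σ τ : SV ι} : σ ≤ τ ↔ ∀ i, σ i = 0 ∨ σ i = τ i := Iff.rfl

/-- Composition of sign vectors. -/
def comp {ι : Type} (σ τ : SV ι) : SV ι := fun i => if σ i = 0 then τ i else σ i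

/-- Opposite sign vector. -/
def opp {ι : Type} (σ : SV ι) : SV ι := fun i => -σ i

section forms

variable {E : Type} [AddCommGroup E] [Module ℝ E] {ι : Type} (f : ι → (E →ₗ[ℝ] ℝ))

/-- The sign vector of a point. -/
noncomputable def sgv (v : E) : SV ι := fun i => SignType.sign (f i v)

/-- The faces: the sign vectors of the points. -/
def Faces : Set (SV ι) := Set.range (sgv f)

/-- The chambers (topes): the faces without zero entry. -/
def Topes : Type := {σ : SV ι // σ ∈ Faces f ∧ ∀ i, σ i ≠ 0}

/-- The common kernel of the forms in a set `J` of indices. -/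
def ZJ (J : Set ι) : Submodule ℝ E := ⨅ i ∈ J, LinearMap.ker (f i)

/-- The linear span of a face: the common kernel of its zero entries. -/
def Zs (σ : SV ι) : Submodule ℝ E := ZJ f {i | σ i = 0}

end forms

/-! ## Order complexes -/

section order

variable {Φ : Type} [PartialOrder Φ]

/-- The chains of `P`, as strictly decreasing lists. -/
def chains (P : Set Φ) : Set (List Φ) := {L | L.Pairwise (fun a b => b < a) ∧ ∀ x ∈ L, x ∈ P}

/-- Prepending a letter. -/
noncomputable def consL {α : Type} (a : α) : (List α →₀ ℤ) →ₗ[ℤ] (List α →₀ ℤ) :=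
  Finsupp.lmapDomain ℤ ℤ (List.cons a)

/-- The simplicial boundary of a list. -/
noncomputable def bL {Φ : Type} : List Φ → (List Φ →₀ ℤ)
  | [] => 0
  | a :: L => Finsupp.single L 1 - consL a (bL L)

/-- The simplicial boundary. -/
noncomputable def dL {Φ : Type} : (List Φ →₀ ℤ) →ₗ[ℤ] (List Φ →₀ ℤ) :=
  Finsupp.linearCombination ℤ bL

/-- `P` is acyclic: the augmented chain complex of its order complex (the empty chain included) is
exact. In particular `P` is nonempty. -/
def Acy (P : Set Φ) : Prop :=
  ∀ x ∈ Finsupp.supported ℤ ℤ (chains P), dL x = 0 →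
    ∃ y ∈ Finsupp.supported ℤ ℤ (chains P), dL y = x

end order

/-! ## Tuples of topes -/

section tuples

variable {E : Type} [AddCommGroup E] [Module ℝ E] {ι : Type} (f : ι → (E →ₗ[ℝ] ℝ))

variable {f} in
/-- `z` is on a geodesic from `y` to `x`. -/
def geo (y z x : Topes f) : Prop := ∀ i, ¬ (y.1 i ≠ z.1 i ∧ z.1 i ≠ x.1 i)

open Classical in
variable {f} in
/-- The boundary of the tuple `(y, l)`, up to sign. -/
noncomputable def bV : Topes f → List (Topes f) → (List (Topes f) →₀ ℤ)
  | _, [] => 0
  | y, z :: l => (if ∃ x l', l = x :: l' ∧ geo y z x then Finsupp.single l 1 else 0) - consL z (bV z l)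

/-- The differential on the tuples starting at `y`. -/
noncomputable def dV (y : Topes f) : (List (Topes f) →₀ ℤ) →ₗ[ℤ] (List (Topes f) →₀ ℤ) :=
  Finsupp.linearCombination ℤ (bV y)

variable {f} in
/-- Consecutive entries of `(y, l)` are distinct. -/
def red : Topes f → List (Topes f) → Prop
  | _, [] => True
  | y, z :: l => y ≠ z ∧ red z l

open Classical in
variable {f} in
/-- The crossing vector of `(y, l)`. -/
noncomputable def cross : Topes f → List (Topes f) → (ι → ℕ)
  | _, [] => 0
  | y, z :: l => fun i => (if y.1 i ≠ z.1 i then 1 else 0) + cross z l i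

variable {f} in
/-- `c` is good for `y`: all level sets of `c` are the zero sets of faces of `y`. -/
def good (y : Topes f) (c : ι → ℕ) : Prop :=
  ∀ n : ℕ, 1 ≤ n → ∃ F ∈ Faces f, F ≤ y.1 ∧ ∀ i, F i = 0 ↔ n ≤ c i

open Classical in
/-- The degree of `c`: the sum of the codimensions of its level sets. -/
noncomputable def degc [Fintype ι] (c : ι → ℕ) : ℕ :=
  ∑ n ∈ Finset.Icc 1 (∑ i, c i), (Module.finrank ℝ E - Module.finrank ℝ (ZJ f {i | n ≤ c i}))

/-- The cells with start `y` and crossing vector `c`. -/
def cells (y : Topes f) (c : ι → ℕ) : Set (List (Topes f)) := {l | red y l ∧ cross y l = c}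

/-- The index set of the magnitude homology. -/
def Idx [Fintype ι] (k l : ℕ) : Type :=
  {p : Topes f × (ι → ℕ) // good p.1 p.2 ∧ ∑ i, p.2 i = l ∧ degc f p.2 = k}

end tuples

end Pool.Agent.V8H14.MHA
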