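import Pool.Agent.V8H14.MHA.Base

/-!
# Based complexes and the relative homology of sets of cells
-/

set_option autoImplicit false

namespace Pool.Agent.V8H14.MHA

variable {X : Type}

/-- A based chain complex. -/
structure Cx (X : Type) where
  b : X → (X →₀ ℤ)
  deg : X → ℕ
  sq : ∀ x, Finsupp.linearCombination ℤ b (b x) = 0
  hdeg : ∀ x, ∀ y ∈ (b x).support, deg y + 1 = deg x

open Classical in
/-- Restriction of a chain to a set of cells. -/
noncomputable def res (S : Set X) : (X →₀ ℤ) →ₗ[ℤ] (X →₀ ℤ) :=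
  (Finsupp.supported ℤ ℤ S).subtype.comp (Finsupp.restrictDom ℤ ℤ S)

abbrev sup (S : Set X) : Submodule ℤ (X →₀ ℤ) := Finsupp.supported ℤ ℤ S

theorem res_mem (S : Set X) (x : X →₀ ℤ) : res S x ∈ sup S := by
  classical
  rw [res]; exact (Finsupp.restrictDom ℤ ℤ S x).2

open Classical in
theorem res_apply (S : Set X) (x : X →₀ ℤ) (a : X) : res S x a = if a ∈ S then x a else 0 := by
  simp [res, Finsupp.restrictDom, Finsupp.filter_apply]

theorem res_of_mem {S : Set X} {x : X →₀ ℤ} (h : x ∈ sup S) : res S x = x := by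
  classical
  ext a
  rw [res_apply]
  split_ifs with ha
  · rfl
  · exact ((Finsupp.mem_supported' ℤ x).1 h a ha).symm

theorem mem_sup' {S : Set X} {x : X →₀ ℤ} : x ∈ sup S ↔ ∀ a, a ∉ S → x a = 0 :=
  Finsupp.mem_supported' ℤ x

theorem mem_sup_iff {S : Set X} {x : X →₀ ℤ} : x ∈ sup S ↔ ∀ a ∈ x.support, a ∈ S := by
  rw [mem_sup']
  simp only [Finsupp.mem_support_iff]
  exact forall_congr' fun a => ⟨fun h h' => by by_contra h''; exact h' (h h''), fun h h' => by
    by_contra h''; exact h' (h h'')⟩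

theorem sup_mono {S T : Set X} (h : S ⊆ T) {x : X →₀ ℤ} (hx : x ∈ sup S) : x ∈ sup T :=
  Finsupp.supported_mono h hx

theorem single_mem {S : Set X} {x : X} (h : x ∈ S) (n : ℤ) : Finsupp.single x n ∈ sup S :=
  Finsupp.single_mem_supported ℤ n h

theorem res_eq_zero {S : Set X} {x : X →₀ ℤ} : res S x = 0 ↔ ∀ a ∈ S, x a = 0 := by
  classical
  constructor
  · intro h a ha
    have := DFunLike.congr_fun h a
    rwa [res_apply, if_pos ha] at this
  · intro h
    ext a
    rw [res_apply]
    split_ifs with ha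
    · exact h a ha
    · rfl

theorem res_res {S T : Set X} (x : X →₀ ℤ) : res S (res T x) = res (S ∩ T) x := by
  classical
  ext a
  simp only [res_apply, Set.mem_inter_iff]
  split_ifs <;> tauto

namespace Cx

variable (C : Cx X)

/-- The differential. -/
noncomputable def d : (X →₀ ℤ) →ₗ[ℤ] (X →₀ ℤ) := Finsupp.linearCombination ℤ C.b

theorem d_single (x : X) (n : ℤ) : C.d (Finsupp.single x n) = n • C.b x :=
  Finsupp.linearCombination_single ℤ n x

theorem d_d (x : X →₀ ℤ) : C.d (C.d x) = 0 := by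
  induction x using Finsupp.induction_linear with
  | zero => simp
  | add a b ha hb => rw [map_add, map_add, ha, hb, add_zero]
  | single a n =>
    rw [d_single, map_smul]
    have : C.d (C.b a) = 0 := C.sq a
    rw [this, smul_zero]

/-- If no cell of `S` has its boundary meeting `T`, the differential of a chain on `S` vanishes
on `T`. -/
theorem res_d_eq_zero {S T : Set X} (h : ∀ x ∈ S, ∀ y ∈ (C.b x).support, y ∉ T) {x : X →₀ ℤ}
    (hx : x ∈ sup S) : res T (C.d x) = 0 := by
  rw [res_eq_zero]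
  intro a ha
  rw [d, Finsupp.linearCombination_apply, Finsupp.sum, Finsupp.finsetSum_apply]
  refine Finset.sum_eq_zero fun y hy => ?_
  have h1 : y ∈ S := mem_sup_iff.1 hx y hy
  have h2 : a ∉ (C.b y).support := fun h' => h y h1 a h' ha
  rw [Finsupp.smul_apply, Finsupp.notMem_support_iff.1 h2, smul_zero]

/-- The relative differential on the set of cells `S`. -/
noncomputable def rel (S : Set X) : (X →₀ ℤ) →ₗ[ℤ] (X →₀ ℤ) := (res S).comp (C.d.comp (res S))

theorem rel_apply {S : Set X} {x : X →₀ ℤ} (hx : x ∈ sup S) : C.rel S x = res S (C.d x) := by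
  rw [rel, LinearMap.comp_apply, LinearMap.comp_apply, res_of_mem hx]

theorem rel_mem (S : Set X) (x : X →₀ ℤ) : C.rel S x ∈ sup S := res_mem _ _

/-- Locally closed sets of cells. -/
def LC (S : Set X) : Prop :=
  ∀ x ∈ S, ∀ y ∈ (C.b x).support, ∀ z ∈ (C.b y).support, z ∈ S → y ∈ S

/-- Closed sets of cells. -/
def Closed (S : Set X) : Prop := ∀ x ∈ S, ∀ y ∈ (C.b x).support, y ∈ S

variable {C}

theorem Closed.lc {S : Set X} (h : C.Closed S) : C.LC S := fun x hx y hy _ _ _ => h x hx y hy

theorem LC.diff {S T : Set X} (hS : C.LC S) (h : C.Closed T) : C.LC (S \ T) :=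
  fun x hx y hy z hz hzS =>
    ⟨hS x hx.1 y hy z hz hzS.1, fun h' => hzS.2 (h y h' z hz)⟩

theorem LC.rel_rel {S : Set X} (h : C.LC S) {x : X →₀ ℤ} (hx : x ∈ sup S) :
    C.rel S (C.rel S x) = 0 := by
  classical
  rw [C.rel_apply (C.rel_mem S x), C.rel_apply hx]
  -- d x = res S (d x) + rest, rest supported off S inside boundary cells
  have h1 : C.d x = res S (C.d x) + (C.d x - res S (C.d x)) := by abel
  have h2 : res S (C.d (C.d x - res S (C.d x))) = 0 := by
    refine C.res_d_eq_zero (S := {y | y ∉ S ∧ ∃ z ∈ S, y ∈ (C.b z).support}) ?_ ?_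
    · rintro y ⟨hy, z, hz, hzy⟩ w hw hwS
      exact hy (h z hz y hzy w hw hwS)
    · rw [mem_sup']
      intro a ha
      rw [Finsupp.sub_apply, res_apply]
      split_ifs with haS
      · simp
      · rw [sub_zero]
        have : ∀ z ∈ S, a ∉ (C.b z).support := fun z hz h' => ha ⟨haS, z, hz, h'⟩
        have h3 : res {a} (C.d x) = 0 := by
          refine C.res_d_eq_zero (S := S) ?_ hx
          intro z hz y hy hya
          exact this z hz (by rw [Set.mem_singleton_iff] at hya; exact hya ▸ hy)
        exact res_eq_zero.1 h3 a rfl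
  have h3 : res S (C.d (C.d x)) = 0 := by rw [C.d_d, map_zero]
  rw [h1, map_add, map_add, h2, add_zero] at h3
  exact h3

/-- The component of degree `n`. -/
noncomputable def comp (C : Cx X) (n : ℕ) : (X →₀ ℤ) →ₗ[ℤ] (X →₀ ℤ) := res {x | C.deg x = n}

theorem d_comp (n : ℕ) (x : X →₀ ℤ) : C.d (C.comp (n + 1) x) = C.comp n (C.d x) := by
  classical
  induction x using Finsupp.induction_linear with
  | zero => simp
  | add a b ha hb => rw [map_add, map_add, ha, hb, map_add, map_add]
  | single a m =>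
    have h1 : ∀ k, C.comp k (Finsupp.single a m) = if C.deg a = k then Finsupp.single a m else 0 := by
      intro k
      ext y
      rw [comp, res_apply]
      split_ifs with h1 h2 h2
      · rfl
      · rw [Finsupp.zero_apply, Finsupp.single_apply]
        rw [if_neg]
        rintro rfl
        exact h2 h1
      · rw [Finsupp.single_apply, if_neg]
        rintro rfl
        exact h1 h2
      · rfl
    have h2 : ∀ k, C.comp k (C.b a) = if C.deg a = k + 1 then C.b a else 0 := by
      intro k
      ext y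
      rw [comp, res_apply]
      by_cases hy : y ∈ (C.b a).support
      · have := C.hdeg a y hy
        by_cases hk : C.deg a = k + 1
        · rw [if_pos hk, if_pos (show y ∈ {x | C.deg x = k} from by
            show C.deg y = k
            omega)]
        · rw [if_neg hk, if_neg (show ¬ y ∈ {x | C.deg x = k} from fun h => by
            have : C.deg y = k := h
            omega)]
          rfl
      · rw [Finsupp.notMem_support_iff] at hy
        split_ifs <;> simp [hy]
    rw [h1, C.d_single, map_smul, h2]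
    split_ifs with h
    · rw [C.d_single]
    · simp

theorem rel_comp (S : Set X) (n : ℕ) (x : X →₀ ℤ) :
    C.rel S (C.comp (n + 1) x) = C.comp n (C.rel S x) := by
  have h1 : ∀ k (y : X →₀ ℤ), res S (C.comp k y) = C.comp k (res S y) := by
    intro k y
    rw [comp, res_res, res_res, Set.inter_comm]
  rw [rel, LinearMap.comp_apply, LinearMap.comp_apply, h1, d_comp, h1]
  rfl

theorem comp_mem {S : Set X} (n : ℕ) {x : X →₀ ℤ} (h : x ∈ sup S) :
    C.comp n x ∈ sup (S ∩ {x | C.deg x = n}) := by
  classical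
  rw [mem_sup'] at h ⊢
  intro a ha
  rw [comp, res_apply]
  split_ifs with h1
  · exact h a fun h2 => ha ⟨h2, h1⟩
  · rfl

theorem comp_of_mem {n : ℕ} {x : X →₀ ℤ} (h : x ∈ sup {x | C.deg x = n}) : C.comp n x = x :=
  res_of_mem h

variable (C)

/-- The relative homology of `S` is free with basis `J`, in degree `n`. -/
def HB (S : Set X) (J : Type) (n : ℕ) : Prop :=
  ∃ Z : (J →₀ ℤ) →ₗ[ℤ] (X →₀ ℤ), (∀ m, Z m ∈ sup (S ∩ {x | C.deg x = n})) ∧
    (∀ m, C.rel S (Z m) = 0) ∧
    (∀ x ∈ sup S, C.rel S x = 0 → ∃ m, ∃ u ∈ sup S, x = Z m + C.rel S u) ∧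
    ∀ m, ∀ u ∈ sup S, Z m = C.rel S u → m = 0

/-- The relative homology of `S` vanishes. -/
def Ac (S : Set X) : Prop := ∀ x ∈ sup S, C.rel S x = 0 → ∃ u ∈ sup S, C.rel S u = x

variable {C}

theorem HB.ac {S : Set X} {J : Type} {n : ℕ} [IsEmpty J] (h : C.HB S J n) : C.Ac S := by
  obtain ⟨Z, -, -, h3, -⟩ := h
  intro x hx hd
  obtain ⟨m, u, hu, rfl⟩ := h3 x hx hd
  have : m = 0 := by ext j; exact isEmptyElim j
  subst this
  exact ⟨u, hu, by rw [map_zero, zero_add]⟩

theorem Ac.hb {S : Set X} (J : Type) [IsEmpty J] (n : ℕ) (h : C.Ac S) : C.HB S J n := by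
  refine ⟨0, fun m => by simp, fun m => by simp, ?_, ?_⟩
  · intro x hx hd
    obtain ⟨u, hu, rfl⟩ := h x hx hd
    exact ⟨0, u, hu, by simp⟩
  · intro m _ _ _
    ext j; exact isEmptyElim j

theorem ac_empty : C.Ac ∅ := by
  intro x hx _
  refine ⟨0, Submodule.zero_mem _, ?_⟩
  have : x = 0 := by
    rw [mem_sup'] at hx
    ext a; exact hx a (Set.notMem_empty a)
  rw [this, map_zero]

end Cx

end Pool.Agent.V8H14.MHA
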