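import Pool.Agent.V8H14.MHA.Les

/-!
# Filtrations and transport
-/

set_option autoImplicit false

namespace Pool.Agent.V8H14.MHA

namespace Cx

variable {X : Type} {C : Cx X}

theorem ac_disjoint {W : Type} {T : Set X} (f : X → W)
    (hf : ∀ x ∈ T, ∀ y ∈ (C.b x).support, y ∈ T → f y = f x)
    (ha : ∀ w, C.Ac (T ∩ {x | f x = w})) : C.Ac T := by
  classical
  intro x hx hd
  rw [C.rel_apply hx] at hd
  have hsub : ∀ w, T ∩ {x | f x = w} ⊆ T := fun w => Set.inter_subset_left
  have key : ∀ w, ∃ u ∈ sup (T ∩ {x | f x = w}), C.rel T u = res (T ∩ {x | f x = w}) x := by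
    intro w
    have e1 : C.rel (T ∩ {x | f x = w}) (res (T ∩ {x | f x = w}) x) = 0 := by
      rw [C.rel_apply (res_mem _ _)]
      have e2 : res (T ∩ {x | f x = w}) (C.d (x - res (T ∩ {x | f x = w}) x)) = 0 := by
        refine C.res_d_eq_zero (S := T ∩ {x | f x ≠ w}) ?_ ?_
        · rintro a ⟨ha, haw⟩ b hb ⟨hbT, hbw⟩
          exact haw ((hf a ha b hb hbT).symm.trans hbw)
        · rw [mem_sup']
          intro a ha
          rw [Finsupp.sub_apply, res_apply]
          split_ifs with h1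
          · rw [sub_self]
          · rw [sub_zero]
            by_cases hT : a ∈ T
            · have : f a = w := by
                by_contra h2
                exact ha ⟨hT, h2⟩
              exact absurd ⟨hT, this⟩ h1
            · exact mem_sup'.1 hx a hT
      have e3 : res (T ∩ {x | f x = w}) (C.d x) = 0 := by
        rw [res_eq_zero] at hd ⊢
        intro a ha
        exact hd a ha.1
      rw [map_sub, map_sub, e3, zero_sub, neg_eq_zero] at e2
      exact e2
    obtain ⟨u, hu, hu2⟩ := ha w _ (res_mem _ _) e1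
    refine ⟨u, hu, ?_⟩
    rw [← hu2, C.rel_apply hu, C.rel_apply (sup_mono (hsub w) hu)]
    ext a
    rw [res_apply, res_apply]
    by_cases h1 : a ∈ T
    · rw [if_pos h1]
      by_cases h2 : f a = w
      · rw [if_pos ⟨h1, h2⟩]
      · rw [if_neg (fun h => h2 h.2)]
        have : res {a} (C.d u) = 0 := by
          refine C.res_d_eq_zero (S := T ∩ {x | f x = w}) ?_ hu
          rintro b ⟨hb, hbw⟩ c hc hca
          rw [Set.mem_singleton_iff] at hca
          subst hca
          exact h2 ((hf b hb c hc h1).trans hbw)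
        exact res_eq_zero.1 this a rfl
    · rw [if_neg h1, if_neg (fun h => h1 h.1)]
  choose u hu hu2 using key
  refine ⟨∑ w ∈ x.support.image f, u w, Submodule.sum_mem _ fun w _ => sup_mono (hsub w) (hu w), ?_⟩
  rw [map_sum]
  simp only [hu2]
  ext a
  rw [Finsupp.finsetSum_apply]
  simp only [res_apply]
  by_cases h0 : x a = 0
  · rw [h0]
    simp
  · have hT : a ∈ T := by
      by_contra h
      exact h0 (mem_sup'.1 hx a h)
    rw [Finset.sum_eq_single (f a)]
    · rw [if_pos ⟨hT, rfl⟩]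
    · intro w _ hw
      rw [if_neg (fun h => hw h.2.symm)]
    · intro h
      exact absurd (Finset.mem_image_of_mem f (Finsupp.mem_support_iff.2 h0)) h

theorem ac_fibers {W : Type} {S : Set X} (hS : C.LC S) (f : X → W) (ht : W → ℕ)
    (mono : ∀ x ∈ S, ∀ y ∈ (C.b x).support, y ∈ S → f y = f x ∨ ht (f y) < ht (f x))
    (ha : ∀ w, C.Ac (S ∩ {x | f x = w})) : C.Ac S := by
  classical
  have lcn : ∀ n, C.LC {x | x ∈ S ∧ ht (f x) < n} := by
    rintro n x ⟨hx, hxn⟩ y hy z hz ⟨hzS, hzn⟩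
    have hyS := hS x hx y hy z hz hzS
    refine ⟨hyS, ?_⟩
    rcases mono x hx y hy hyS with h | h
    · show ht (f y) < n
      rw [h]; exact hxn
    · exact h.trans hxn
  have hn : ∀ n, C.Ac {x | x ∈ S ∧ ht (f x) < n} := by
    intro n
    induction n with
    | zero =>
      have : {x | x ∈ S ∧ ht (f x) < 0} = (∅ : Set X) := by
        ext x
        simp
      rw [this]
      exact ac_empty
    | succ n ih =>
      have hsp : Split C {x | x ∈ S ∧ ht (f x) < n + 1} {x | x ∈ S ∧ ht (f x) < n}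
          {x | x ∈ S ∧ ht (f x) = n} := by
        refine ⟨lcn _, ?_, ?_, ?_⟩
        · intro x
          show (x ∈ S ∧ ht (f x) < n + 1) ↔ (x ∈ S ∧ ht (f x) < n) ∨ (x ∈ S ∧ ht (f x) = n)
          constructor
          · rintro ⟨h1, h2⟩
            rcases Nat.lt_succ_iff_lt_or_eq.1 h2 with h | h
            · exact Or.inl ⟨h1, h⟩
            · exact Or.inr ⟨h1, h⟩
          · rintro (⟨h1, h2⟩ | ⟨h1, h2⟩)
            · exact ⟨h1, by omega⟩
            · exact ⟨h1, by omega⟩
        · rintro x ⟨_, h1⟩ ⟨_, h2⟩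
          omega
        · rintro x ⟨hx, hxn⟩ y hy ⟨hyS, hyn⟩
          rcases mono x hx y hy hyS with h | h
          · rw [h] at hyn
            omega
          · omega
      refine hsp.ac ih ?_
      refine ac_disjoint f ?_ ?_
      · rintro x ⟨hx, hxn⟩ y hy ⟨hyS, hyn⟩
        rcases mono x hx y hy hyS with h | h
        · exact h
        · omega
      · intro w
        by_cases hw : ht w = n
        · convert ha w using 1
          ext x
          constructor
          · rintro ⟨⟨h1, h2⟩, h3⟩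
            exact ⟨h1, h3⟩
          · rintro ⟨h1, h3⟩
            refine ⟨⟨h1, ?_⟩, h3⟩
            have : f x = w := h3
            rw [this, hw]
        · convert ac_empty (C := C) using 1
          ext x
          constructor
          · rintro ⟨⟨h1, h2⟩, h3⟩
            have : f x = w := h3
            rw [this] at h2
            exact absurd h2 hw
          · intro h
            exact absurd h (Set.notMem_empty x)
  intro x hx hd
  -- bound the height
  obtain ⟨N, hN⟩ : ∃ N, ∀ a ∈ x.support, ht (f a) < N := by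
    refine ⟨x.support.sup (fun a => ht (f a)) + 1, fun a ha => ?_⟩
    exact Nat.lt_succ_of_le (Finset.le_sup (f := fun a => ht (f a)) ha)
  have hsp : Split C S {x | x ∈ S ∧ ht (f x) < N} {x | x ∈ S ∧ ¬ ht (f x) < N} := by
    refine ⟨hS, ?_, ?_, ?_⟩
    · intro x
      show x ∈ S ↔ (x ∈ S ∧ ht (f x) < N) ∨ (x ∈ S ∧ ¬ ht (f x) < N)
      tauto
    · rintro x ⟨_, h1⟩ ⟨_, h2⟩
      exact h2 h1
    · rintro x ⟨hx, hxn⟩ y hy ⟨hyS, hyn⟩
      rcases mono x hx y hy hyS with h | h
      · rw [h] at hyn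
        exact hyn hxn
      · omega
  have hx0 : x ∈ sup {x | x ∈ S ∧ ht (f x) < N} := by
    rw [mem_sup_iff]
    intro a ha
    exact ⟨mem_sup_iff.1 hx a ha, hN a ha⟩
  rw [hsp.rel0 hx0] at hd
  obtain ⟨u, hu, hu2⟩ := hn N x hx0 hd
  exact ⟨u, hsp.mono0 hu, by rw [hsp.rel0 hu, hu2]⟩

/-- All the fibers but one are acyclic. -/
theorem hb_fiber {W : Type} {S : Set X} (hS : C.LC S) (f : X → W) (ht : W → ℕ)
    (mono : ∀ x ∈ S, ∀ y ∈ (C.b x).support, y ∈ S → f y = f x ∨ ht (f y) < ht (f x)) (w₀ : W)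
    (ha : ∀ w, w ≠ w₀ → C.Ac (S ∩ {x | f x = w})) {J : Type} {n : ℕ}
    (hb : C.HB (S ∩ {x | f x = w₀}) J n) : C.HB S J n := by
  classical
  set A : Set X := {x | x ∈ S ∧ (ht (f x) < ht w₀ ∨ (ht (f x) = ht w₀ ∧ f x ≠ w₀))} with hA
  set M : Set X := {x | x ∈ S ∧ ht (f x) ≤ ht w₀} with hM
  set U : Set X := {x | x ∈ S ∧ ht w₀ < ht (f x)} with hU
  have fib : ∀ (P : W → Prop), ∀ w, ({x | x ∈ S ∧ P (f x)} : Set X) ∩ {x | f x = w} =
      if P w then S ∩ {x | f x = w} else ∅ := by
    intro P w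
    ext x
    split_ifs with h
    · constructor
      · rintro ⟨⟨h1, h2⟩, h3⟩
        exact ⟨h1, h3⟩
      · rintro ⟨h1, h3⟩
        have h3' : f x = w := h3
        exact ⟨⟨h1, by rw [h3']; exact h⟩, h3⟩
    · constructor
      · rintro ⟨⟨h1, h2⟩, h3⟩
        have h3' : f x = w := h3
        rw [h3'] at h2
        exact absurd h2 h
      · intro h'
        exact absurd h' (Set.notMem_empty x)
  have lcM : C.LC M := by
    rintro x ⟨hx, hxn⟩ y hy z hz ⟨hzS, hzn⟩
    have hyS := hS x hx y hy z hz hzS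
    refine ⟨hyS, ?_⟩
    rcases mono x hx y hy hyS with h | h
    · rw [h]; exact hxn
    · exact h.le.trans hxn
  have lcU : C.LC U := by
    rintro x ⟨hx, hxn⟩ y hy z hz ⟨hzS, hzn⟩
    have hyS := hS x hx y hy z hz hzS
    refine ⟨hyS, ?_⟩
    rcases mono y hyS z hz hzS with h | h
    · rw [← h]; exact hzn
    · exact hzn.trans h
  have lcA : C.LC A := by
    rintro x ⟨hx, hxn⟩ y hy z hz ⟨hzS, hzn⟩
    have hyS := hS x hx y hy z hz hzS
    refine ⟨hyS, ?_⟩
    rcases mono x hx y hy hyS with h | h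
    · rw [h]; exact hxn
    · rcases hxn with h' | h'
      · exact Or.inl (h.trans h')
      · exact Or.inl (h.trans_le h'.1.le)
  have acA : C.Ac A := by
    refine ac_fibers lcA f ht (fun x hx y hy hy' => mono x hx.1 y hy hy'.1) ?_
    intro w
    rw [hA, fib (fun v => ht v < ht w₀ ∨ (ht v = ht w₀ ∧ v ≠ w₀)) w]
    split_ifs with h
    · refine ha w ?_
      rintro rfl
      rcases h with h | h
      · exact lt_irrefl _ h
      · exact h.2 rfl
    · exact ac_empty
  have acU : C.Ac U := by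
    refine ac_fibers lcU f ht (fun x hx y hy hy' => mono x hx.1 y hy hy'.1) ?_
    intro w
    rw [hU, fib (fun v => ht w₀ < ht v) w]
    split_ifs with h
    · refine ha w ?_
      rintro rfl
      exact lt_irrefl _ h
    · exact ac_empty
  have s1 : Split C M A (S ∩ {x | f x = w₀}) := by
    refine ⟨lcM, ?_, ?_, ?_⟩
    · intro x
      constructor
      · rintro ⟨h1, h2⟩
        by_cases h3 : f x = w₀
        · exact Or.inr ⟨h1, h3⟩
        · rcases h2.lt_or_eq with h4 | h4
          · exact Or.inl ⟨h1, Or.inl h4⟩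
          · exact Or.inl ⟨h1, Or.inr ⟨h4, h3⟩⟩
      · rintro (⟨h1, h2 | h2⟩ | ⟨h1, h2⟩)
        · exact ⟨h1, h2.le⟩
        · exact ⟨h1, h2.1.le⟩
        · have h2' : f x = w₀ := h2
          exact ⟨h1, by rw [h2']⟩
    · rintro x ⟨_, h1⟩ ⟨_, h2⟩
      have h2' : f x = w₀ := h2
      rcases h1 with h1 | h1
      · rw [h2'] at h1; exact lt_irrefl _ h1
      · exact h1.2 h2'
    · rintro x ⟨hx, hxn⟩ y hy ⟨hyS, hyn⟩
      have hyn' : f y = w₀ := hyn
      rcases mono x hx y hy hyS with h | h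
      · rw [← h, hyn'] at hxn
        rcases hxn with h1 | h1
        · exact lt_irrefl _ h1
        · exact h1.2 rfl
      · rw [hyn'] at h
        rcases hxn with h1 | h1
        · omega
        · omega
  have s2 : Split C S M U := by
    refine ⟨hS, ?_, ?_, ?_⟩
    · intro x
      constructor
      · intro h
        rcases le_or_gt (ht (f x)) (ht w₀) with h1 | h1
        · exact Or.inl ⟨h, h1⟩
        · exact Or.inr ⟨h, h1⟩
      · rintro (h | h)
        · exact h.1
        · exact h.1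
    · rintro x ⟨_, h1⟩ ⟨_, h2⟩
      omega
    · rintro x ⟨hx, hxn⟩ y hy ⟨hyS, hyn⟩
      rcases mono x hx y hy hyS with h | h
      · rw [h] at hyn; omega
      · omega
  exact s2.hb_of_sub acU (s1.hb_of_quot acA hb)

section transport

variable {X' : Type} {C' : Cx X'}

theorem hb_map (φ : X → X') (ψ : X' → X) (hψ : ∀ x, ψ (φ x) = x) (S : Set X) (ε : ℤ)
    (hε : ε * ε = 1) (k : ℕ) (hdeg : ∀ x ∈ S, C'.deg (φ x) = C.deg x + k)
    (hb : ∀ x ∈ S, res (φ '' S) (C'.b (φ x)) = ε • Finsupp.mapDomain φ (res S (C.b x)))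
    (J : Type) (n : ℕ) : C.HB S J n ↔ C'.HB (φ '' S) J (n + k) := by
  classical
  set Φ : (X →₀ ℤ) →ₗ[ℤ] (X' →₀ ℤ) := Finsupp.lmapDomain ℤ ℤ φ with hΦ
  set Ψ : (X' →₀ ℤ) →ₗ[ℤ] (X →₀ ℤ) := Finsupp.lmapDomain ℤ ℤ ψ with hΨ
  have ΨΦ : ∀ x, Ψ (Φ x) = x := by
    intro x
    rw [hΦ, hΨ, Finsupp.lmapDomain_apply, Finsupp.lmapDomain_apply, ← Finsupp.mapDomain_comp]
    have : ψ ∘ φ = id := funext hψ
    rw [this, Finsupp.mapDomain_id]
  have Φm : ∀ (T : Set X) x, x ∈ sup T → Φ x ∈ sup (φ '' T) := by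
    intro T x hx
    rw [hΦ, Finsupp.lmapDomain_apply, mem_sup_iff]
    intro a ha
    obtain ⟨b, hb, rfl⟩ := Finset.mem_image.1 (Finsupp.mapDomain_support ha)
    exact ⟨b, mem_sup_iff.1 hx b hb, rfl⟩
  have Ψm : ∀ (T : Set X) x, x ∈ sup (φ '' T) → Ψ x ∈ sup T := by
    intro T x hx
    rw [hΨ, Finsupp.lmapDomain_apply, mem_sup_iff]
    intro a ha
    obtain ⟨b, hb, rfl⟩ := Finset.mem_image.1 (Finsupp.mapDomain_support ha)
    obtain ⟨c, hc, rfl⟩ := mem_sup_iff.1 hx b hb
    rw [hψ]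
    exact hc
  have ΦΨ : ∀ x ∈ sup (φ '' S), Φ (Ψ x) = x := by
    intro x hx
    have hx' : x ∈ Submodule.span ℤ ((fun a => Finsupp.single a (1 : ℤ)) '' (φ '' S)) := by
      rwa [← Finsupp.supported_eq_span_single]
    clear hx
    induction hx' using Submodule.span_induction with
    | mem y hy =>
      obtain ⟨_, ⟨a, _, rfl⟩, rfl⟩ := hy
      simp only [hΦ, hΨ, Finsupp.lmapDomain_apply, Finsupp.mapDomain_single, hψ]
    | zero => simp
    | add y z _ _ hy hz => rw [map_add, map_add, hy, hz]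
    | smul a y _ hy => rw [map_smul, map_smul, hy]
  have hrel : ∀ x ∈ sup S, C'.rel (φ '' S) (Φ x) = ε • Φ (C.rel S x) := by
    intro x hx
    have hx' : x ∈ Submodule.span ℤ ((fun a => Finsupp.single a (1 : ℤ)) '' S) := by
      rwa [← Finsupp.supported_eq_span_single]
    clear hx
    induction hx' using Submodule.span_induction with
    | mem y hy =>
      obtain ⟨a, ha, rfl⟩ := hy
      have e1 : Φ (Finsupp.single a 1) = Finsupp.single (φ a) 1 := by
        rw [hΦ, Finsupp.lmapDomain_apply, Finsupp.mapDomain_single]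
      rw [e1, C'.rel_apply (single_mem (Set.mem_image_of_mem φ ha) 1),
        C.rel_apply (single_mem ha 1), C'.d_single, C.d_single, one_smul, one_smul, hb a ha]
      rfl
    | zero => simp
    | add y z _ _ hy hz => rw [map_add, map_add, map_add, map_add, smul_add, hy, hz]
    | smul a y _ hy => rw [map_smul, map_smul, map_smul, map_smul, hy, smul_comm]
  have hrel' : ∀ x ∈ sup (φ '' S), C.rel S (Ψ x) = ε • Ψ (C'.rel (φ '' S) x) := by
    intro x hx
    have h1 := hrel (Ψ x) (Ψm S x hx)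
    rw [ΦΨ x hx] at h1
    rw [h1, map_smul, ΨΦ, smul_smul, hε, one_smul]
  constructor
  · rintro ⟨Z, z1, z2, z3, z4⟩
    have z1' : ∀ m, Z m ∈ sup S := fun m => sup_mono Set.inter_subset_left (z1 m)
    refine ⟨Φ.comp Z, ?_, ?_, ?_, ?_⟩
    · intro m
      rw [LinearMap.comp_apply]
      refine sup_mono ?_ (Φm _ _ (z1 m))
      rintro _ ⟨a, ⟨ha, han⟩, rfl⟩
      refine ⟨Set.mem_image_of_mem φ ha, ?_⟩
      have : C.deg a = n := han
      show C'.deg (φ a) = n + k
      rw [hdeg a ha, this]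
    · intro m
      rw [LinearMap.comp_apply, hrel _ (z1' m), z2, map_zero, smul_zero]
    · intro x hx hd
      have h1 : C.rel S (Ψ x) = 0 := by rw [hrel' x hx, hd, map_zero, smul_zero]
      obtain ⟨m, u, hu, h2⟩ := z3 _ (Ψm S x hx) h1
      refine ⟨m, ε • Φ u, Submodule.smul_mem _ _ (Φm S u hu), ?_⟩
      rw [map_smul, hrel u hu, smul_smul, hε, one_smul, LinearMap.comp_apply, ← map_add, ← h2,
        ΦΨ x hx]
    · intro m u hu h1
      refine z4 m (ε • Ψ u) (Submodule.smul_mem _ _ (Ψm S u hu)) ?_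
      rw [map_smul, hrel' u hu, smul_smul, hε, one_smul, ← h1, LinearMap.comp_apply, ΨΦ]
  · rintro ⟨Z, z1, z2, z3, z4⟩
    have z1' : ∀ m, Z m ∈ sup (φ '' S) := fun m => sup_mono Set.inter_subset_left (z1 m)
    refine ⟨Ψ.comp Z, ?_, ?_, ?_, ?_⟩
    · intro m
      rw [LinearMap.comp_apply]
      refine Ψm _ _ (sup_mono ?_ (z1 m))
      rintro _ ⟨⟨a, ha, rfl⟩, han⟩
      refine ⟨a, ⟨ha, ?_⟩, rfl⟩
      have h1 : C'.deg (φ a) = n + k := han
      have h2 := hdeg a ha
      show C.deg a = n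
      omega
    · intro m
      rw [LinearMap.comp_apply, hrel' _ (z1' m), z2, map_zero, smul_zero]
    · intro x hx hd
      have h1 : C'.rel (φ '' S) (Φ x) = 0 := by rw [hrel x hx, hd, map_zero, smul_zero]
      obtain ⟨m, u, hu, h2⟩ := z3 _ (Φm S x hx) h1
      refine ⟨m, ε • Ψ u, Submodule.smul_mem _ _ (Ψm S u hu), ?_⟩
      rw [map_smul, hrel' u hu, smul_smul, hε, one_smul, LinearMap.comp_apply, ← map_add, ← h2,
        ΨΦ]
    · intro m u hu h1
      refine z4 m (ε • Φ u) (Submodule.smul_mem _ _ (Φm S u hu)) ?_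
      rw [map_smul, hrel u hu, smul_smul, hε, one_smul, ← h1, LinearMap.comp_apply,
        ΦΨ _ (z1' m)]

theorem ac_map (φ : X → X') (ψ : X' → X) (hψ : ∀ x, ψ (φ x) = x) (S : Set X) (ε : ℤ)
    (hε : ε * ε = 1) (k : ℕ) (hdeg : ∀ x ∈ S, C'.deg (φ x) = C.deg x + k)
    (hb : ∀ x ∈ S, res (φ '' S) (C'.b (φ x)) = ε • Finsupp.mapDomain φ (res S (C.b x))) :
    C.Ac S ↔ C'.Ac (φ '' S) := by
  have := hb_map φ ψ hψ S ε hε k hdeg hb Empty 0
  exact ⟨fun h => (this.1 (h.hb _ _)).ac, fun h => (this.2 (h.hb _ _)).ac⟩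

end transport

end Cx

end Pool.Agent.V8H14.MHA
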