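import Pool.Agent.V8H40.MHA.Geo

/-!
# Intervals of faces are spheres (with coefficients in a based complex)
-/

set_option autoImplicit false

namespace Pool.Agent.V8H14.MHA

open Cx Pool.Agent.V8H40.MHA

section general

variable {X : Type} {C : Cx X}

theorem Cx.HB.congr {S : Set X} {K K' : Type} {n : ℕ} (h : C.HB S K n) (e : K ≃ K') :
    C.HB S K' n := by
  obtain ⟨Z, z1, z2, z3, z4⟩ := h
  let e' : (K' →₀ ℤ) ≃ₗ[ℤ] (K →₀ ℤ) := Finsupp.domLCongr e.symm
  refine ⟨Z.comp e'.toLinearMap, fun m => z1 _, fun m => z2 _, ?_, ?_⟩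
  · intro x hx hd
    obtain ⟨m, u, hu, h⟩ := z3 x hx hd
    refine ⟨e'.symm m, u, hu, ?_⟩
    rw [LinearMap.comp_apply, LinearEquiv.coe_coe, LinearEquiv.apply_symm_apply, h]
  · intro m u hu h
    have := z4 _ u hu h
    exact (LinearEquiv.map_eq_zero_iff e').1 this

theorem Cx.HB.congr_cx {C' : Cx X} {S : Set X} {K : Type} {n : ℕ} (h : C.HB S K n)
    (hrel : ∀ x ∈ sup S, C'.rel S x = C.rel S x) (hdeg : ∀ x, C'.deg x = C.deg x) :
    C'.HB S K n := by
  obtain ⟨Z, z1, z2, z3, z4⟩ := h
  have z1' : ∀ m, Z m ∈ sup S := fun m => sup_mono Set.inter_subset_left (z1 m)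
  refine ⟨Z, ?_, ?_, ?_, ?_⟩
  · intro m
    simp only [hdeg]
    exact z1 m
  · intro m
    rw [hrel _ (z1' m), z2]
  · intro x hx hd
    rw [hrel x hx] at hd
    obtain ⟨m, u, hu, h⟩ := z3 x hx hd
    exact ⟨m, u, hu, by rw [hrel u hu, h]⟩
  · intro m u hu h
    rw [hrel u hu] at h
    exact z4 m u hu h

end general

variable {Φ B : Type} [PartialOrder Φ]

/-- The cells `(L, β)` with `L` a chain of `P` containing the letters of `R`, and `β ∈ T`. -/
def SR (P R : Set Φ) (T : Set B) : Set (List Φ × B) :=
  {p | p.1 ∈ chains P ∧ p.2 ∈ T ∧ ∀ r ∈ R, r ∈ p.1}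

theorem lc_SR {C : Cx B} (P R : Set Φ) {T : Set B} (hT : C.Closed T) :
    (J Φ C).LC (SR P R T) := by
  rintro p ⟨h1, h2, h3⟩ q hq r hr ⟨g1, g2, g3⟩
  have hq' := C.supp_bJ hq
  have hr' := C.supp_bJ hr
  refine ⟨?_, ?_, ?_⟩
  · rcases hq' with ⟨_, h, _⟩ | ⟨h, _⟩
    · exact chains_sublist h1 h
    · rw [h]; exact h1
  · rcases hq' with ⟨h, _, _⟩ | ⟨_, h⟩
    · rw [h]; exact h2
    · exact hT _ h2 _ h
  · intro a ha
    rcases hr' with ⟨_, h, _⟩ | ⟨h, _⟩
    · exact h.subset (g3 a ha)
    · rw [← h]; exact g3 a ha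

variable {E : Type} [AddCommGroup E] [Module ℝ E] {ι : Type} [Fintype ι] (f : ι → (E →ₗ[ℝ] ℝ))

/-- The open interval of faces. -/
def OI (G K : SV ι) : Set (SV ι) := {τ | τ ∈ Faces f ∧ G < τ ∧ τ < K}

/-- The cells `(L ++ [G], β)` with `L` a chain of the interval `(G, K)`. -/
def IV (G K : SV ι) (T : Set B) : Set (List (SV ι) × B) :=
  {p | ∃ L ∈ chains (OI f G K), p.1 = L ++ [G] ∧ p.2 ∈ T}

theorem IV_eq (G K : SV ι) (hG : G ∈ Faces f) (hGK : G < K) (T : Set B) :
    IV f G K T = SR {τ | τ ∈ Faces f ∧ G ≤ τ ∧ τ < K} {G} T := by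
  ext p
  constructor
  · rintro ⟨L, hL, h1, h2⟩
    refine ⟨⟨?_, ?_⟩, h2, ?_⟩
    · rw [h1, List.pairwise_append]
      refine ⟨hL.1, List.pairwise_singleton _ _, ?_⟩
      intro a ha b hb
      rw [List.mem_singleton] at hb
      rw [hb]
      exact (hL.2 a ha).2.1
    · intro x hx
      rw [h1] at hx
      rcases List.mem_append.1 hx with h | h
      · exact ⟨(hL.2 x h).1, (hL.2 x h).2.1.le, (hL.2 x h).2.2⟩
      · rw [List.mem_singleton] at h
        rw [h]
        exact ⟨hG, le_rfl, hGK⟩
    · intro r hr
      rw [Set.mem_singleton_iff] at hr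
      rw [h1, hr]
      simp
  · rintro ⟨h1, h2, h3⟩
    have hGm : G ∈ p.1 := h3 G rfl
    obtain ⟨l₁, l₂, e1, e2, e3⟩ := split_decr h1.1 hGm
    have e4 : l₂ = [] := by
      cases l₂ with
      | nil => rfl
      | cons a l₂ =>
        have h4 : a < G := e3 a (by simp)
        have h5 := (h1.2 a (by rw [e1]; simp)).2.1
        exact absurd (h4.trans_le h5) (lt_irrefl _)
    subst e4
    refine ⟨l₁, ⟨?_, ?_⟩, e1, h2⟩
    · have := h1.1
      rw [e1, List.pairwise_append] at this
      exact this.1
    · intro x hx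
      have := h1.2 x (by rw [e1]; simp [hx])
      exact ⟨this.1, e2 x hx, this.2.2⟩

theorem SV.finite : Finite (SV ι) := by
  unfold SV
  infer_instance

/-- Intervals of faces are spheres. -/
theorem hb_interval [FiniteDimensional ℝ E] {C : Cx B} {T : Set B} (hT : C.Closed T) {Kt : Type}
    {n : ℕ} (hb : C.HB T Kt n) (N : ℕ) : ∀ (G K : SV ι), G ∈ Faces f → K ∈ Faces f → G < K →
    Module.finrank ℝ (Zs f K) ≤ N → Module.finrank ℝ (Zs f G) ≤ Module.finrank ℝ (Zs f K) ∧
    (J (SV ι) C).HB (IV f G K T) Kt
      (n + (Module.finrank ℝ (Zs f K) - Module.finrank ℝ (Zs f G))) := by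
  classical
  have hfin : Finite (SV ι) := SV.finite
  induction N with
  | zero =>
    -- no room: there is a facet between
    intro G K hG hK hGK hN
    exfalso
    obtain ⟨K', hK'⟩ : ∃ K', Maximal (fun τ => τ ∈ Faces f ∧ G ≤ τ ∧ τ < K) K' := by
      obtain ⟨m, -, hm⟩ := (Set.toFinite {τ | τ ∈ Faces f ∧ G ≤ τ ∧ τ < K}).exists_le_maximal
        (a := G) ⟨hG, le_rfl, hGK⟩
      exact ⟨m, hm⟩
    have := finrank_facet f K' K hK'.prop.1 hK hK'.prop.2.2 (fun τ hτ h1 h2 =>
      absurd (hK'.le_of_ge ⟨hτ, hK'.prop.2.1.trans h2.le, h1⟩ h2.le) (not_le_of_gt h2))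
    omega
  | succ N ih =>
    intro G K hG hK hGK hN
    by_cases hemp : ∃ τ, τ ∈ OI f G K
    · -- a facet `K'` of `K` above `G`
      obtain ⟨τ₀, hτ₀⟩ := hemp
      obtain ⟨K', hle, hK'⟩ := (Set.toFinite (OI f G K)).exists_le_maximal (a := τ₀) hτ₀
      have hfac : ∀ τ ∈ Faces f, τ < K → ¬ K' < τ := fun τ hτ h1 h2 =>
        absurd (hK'.le_of_ge ⟨hτ, hK'.prop.2.1.trans h2, h1⟩ h2.le) (not_le_of_gt h2)
      have hdim := finrank_facet f K' K hK'.prop.1 hK hK'.prop.2.2 hfac
      obtain ⟨hle', ih'⟩ := ih G K' hG hK'.prop.1 hK'.prop.2.1 (by omega)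
      refine ⟨by omega, ?_⟩
      have hP := acy_punctured f G K' K hG hK'.prop.1 hK hK'.prop.2.1 hK'.prop.2.2 hfac
      set S := IV f G K T with hS
      set S₀ : Set (List (SV ι) × B) :=
        {p | ∃ L ∈ chains {τ | τ ∈ Faces f ∧ G < τ ∧ τ < K ∧ τ ≠ K'}, p.1 = L ++ [G] ∧ p.2 ∈ T}
        with hS₀
      set S₁ := (fun p : List (SV ι) × B => (K' :: p.1, p.2)) '' IV f G K' T with hS₁
      have hsp : Split (J (SV ι) C) S S₀ S₁ := by
        refine ⟨?_, ?_, ?_, ?_⟩
        · rw [hS, IV_eq f G K hG hGK]
          exact lc_SR _ _ hT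
        · intro p
          constructor
          · rintro ⟨L, hL, h1, h2⟩
            by_cases hm : K' ∈ L
            · right
              obtain ⟨l₁, l₂, e1, e2, e3⟩ := split_decr hL.1 hm
              have e4 : l₁ = [] := by
                cases l₁ with
                | nil => rfl
                | cons a l₁ =>
                  have h4 : K' < a := e2 a (by simp)
                  have h5 := hL.2 a (by rw [e1]; simp)
                  exact absurd h4 (hfac a h5.1 h5.2.2)
              subst e4
              refine ⟨(l₂ ++ [G], p.2), ⟨l₂, ⟨?_, ?_⟩, rfl, h2⟩, ?_⟩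
              · have := hL.1
                rw [e1] at this
                exact (List.pairwise_cons.1 this).2
              · intro x hx
                have := hL.2 x (by rw [e1]; simp [hx])
                exact ⟨this.1, this.2.1, e3 x hx⟩
              · show (K' :: (l₂ ++ [G]), p.2) = p
                have : p.1 = K' :: (l₂ ++ [G]) := by rw [h1, e1]; simp
                rw [← this]
            · left
              refine ⟨L, ⟨hL.1, fun x hx => ?_⟩, h1, h2⟩
              have := hL.2 x hx
              exact ⟨this.1, this.2.1, this.2.2, fun h => hm (h ▸ hx)⟩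
          · rintro (⟨L, hL, h1, h2⟩ | ⟨q, ⟨L, hL, h1, h2⟩, rfl⟩)
            · refine ⟨L, ⟨hL.1, fun x hx => ?_⟩, h1, h2⟩
              have := hL.2 x hx
              exact ⟨this.1, this.2.1, this.2.2.1⟩
            · refine ⟨K' :: L, ⟨List.pairwise_cons.2 ⟨fun x hx => (hL.2 x hx).2.2, hL.1⟩, ?_⟩, ?_, h2⟩
              · intro x hx
                rcases List.mem_cons.1 hx with rfl | h
                · exact hK'.prop
                · have := hL.2 x h
                  exact ⟨this.1, this.2.1, this.2.2.trans hK'.prop.2.2⟩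
              · show K' :: q.1 = _
                rw [h1]
                rfl
        · rintro p ⟨L, hL, h1, -⟩ ⟨q, -, h3⟩
          have h4 : K' :: q.1 = L ++ [G] := by
            rw [← h1, ← h3]
          have h5 : K' ∈ L ++ [G] := by rw [← h4]; simp
          rcases List.mem_append.1 h5 with h | h
          · exact (hL.2 K' h).2.2.2 rfl
          · rw [List.mem_singleton] at h
            exact absurd (h ▸ hK'.prop.2.1) (lt_irrefl _)
        · rintro p ⟨L, hL, h1, -⟩ r hr ⟨q, -, h3⟩
          have h5 : K' ∈ r.1 := by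
            rw [← h3]
            show K' ∈ K' :: q.1
            simp
          have h6 : K' ∈ p.1 := by
            rcases C.supp_bJ hr with ⟨_, h, _⟩ | ⟨h, _⟩
            · exact h.subset h5
            · rw [← h]; exact h5
          rw [h1] at h6
          rcases List.mem_append.1 h6 with h | h
          · exact (hL.2 K' h).2.2.2 rfl
          · rw [List.mem_singleton] at h
            exact absurd (h ▸ hK'.prop.2.1) (lt_irrefl _)
      have ac0 : (J (SV ι) C).Ac S₀ := by
        have hS₀' : S₀ = SR {τ | τ = G ∨ (τ ∈ Faces f ∧ G < τ ∧ τ < K ∧ τ ≠ K')} {G} T := by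
          ext p
          constructor
          · rintro ⟨L, hL, h1, h2⟩
            refine ⟨⟨?_, ?_⟩, h2, ?_⟩
            · rw [h1, List.pairwise_append]
              refine ⟨hL.1, List.pairwise_singleton _ _, ?_⟩
              intro a ha b hb
              rw [List.mem_singleton] at hb
              rw [hb]
              exact (hL.2 a ha).2.1
            · intro x hx
              rw [h1] at hx
              rcases List.mem_append.1 hx with h | h
              · exact Or.inr (hL.2 x h)
              · rw [List.mem_singleton] at h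
                exact Or.inl h
            · intro r hr
              rw [Set.mem_singleton_iff] at hr
              rw [h1, hr]
              simp
          · rintro ⟨h1, h2, h3⟩
            have hGm : G ∈ p.1 := h3 G rfl
            obtain ⟨l₁, l₂, e1, e2, e3⟩ := split_decr h1.1 hGm
            have e4 : l₂ = [] := by
              cases l₂ with
              | nil => rfl
              | cons a l₂ =>
                have h4 : a < G := e3 a (by simp)
                rcases h1.2 a (by rw [e1]; simp) with h5 | h5
                · rw [h5] at h4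
                  exact absurd h4 (lt_irrefl _)
                · exact absurd (h4.trans h5.2.1) (lt_irrefl _)
            subst e4
            refine ⟨l₁, ⟨?_, ?_⟩, e1, h2⟩
            · have := h1.1
              rw [e1, List.pairwise_append] at this
              exact this.1
            · intro x hx
              rcases h1.2 x (by rw [e1]; simp [hx]) with h5 | h5
              · have := e2 x hx
                rw [h5] at this
                exact absurd this (lt_irrefl _)
              · exact h5
        have lc0 : (J (SV ι) C).LC S₀ := by rw [hS₀']; exact lc_SR _ _ hT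
        refine ac_fibers lc0 (fun p => p.2) C.deg ?_ ?_
        · intro p _ q hq _
          rcases C.supp_bJ hq with ⟨h, _, _⟩ | ⟨_, h⟩
          · exact Or.inl h
          · right
            have := C.hdeg _ _ h
            omega
        · intro β
          by_cases hβ : β ∈ T
          · have := ac_append (Φ := SV ι) C hP [G] (fun a m' hm ha => by
              rw [List.cons.injEq] at hm
              rw [← hm.1] at ha
              exact lt_irrefl _ ha.2.1) β
            convert this using 1
            ext p
            constructor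
            · rintro ⟨⟨L, hL, h1, h2⟩, h3⟩
              have h3' : p.2 = β := h3
              refine ⟨L, hL, ?_⟩
              show (L ++ [G], β) = p
              rw [← h1, ← h3']
            · rintro ⟨L, hL, rfl⟩
              exact ⟨⟨L, hL, rfl, hβ⟩, rfl⟩
          · convert ac_empty (C := J (SV ι) C) using 1
            ext p
            constructor
            · rintro ⟨⟨L, hL, h1, h2⟩, h3⟩
              have h3' : p.2 = β := h3
              rw [h3'] at h2
              exact absurd h2 hβ
            · intro h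
              exact absurd h (Set.notMem_empty p)
      have hb1 : (J (SV ι) C).HB S₁ Kt
          (n + (Module.finrank ℝ (Zs f K') - Module.finrank ℝ (Zs f G)) + 1) := by
        refine (hb_cons (Φ := SV ι) C K' (IV f G K' T) ?_ Kt _).1 ih'
        rintro p ⟨L, hL, h1, -⟩ ⟨q, -, h3⟩
        have h4 : K' :: q.1 = L ++ [G] := by
          rw [← h1, ← h3]
        have h5 : K' ∈ L ++ [G] := by rw [← h4]; simp
        rcases List.mem_append.1 h5 with h | h
        · exact absurd (hL.2 K' h).2.2 (lt_irrefl _)
        · rw [List.mem_singleton] at h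
          exact absurd (h ▸ hK'.prop.2.1) (lt_irrefl _)
      have := hsp.hb_of_quot ac0 hb1
      have e : n + (Module.finrank ℝ (Zs f K') - Module.finrank ℝ (Zs f G)) + 1 =
          n + (Module.finrank ℝ (Zs f K) - Module.finrank ℝ (Zs f G)) := by omega
      rwa [e] at this
    · -- `G` is a facet of `K`
      have hdim := finrank_facet f G K hG hK hGK (fun τ hτ h1 h2 => hemp ⟨τ, hτ, h2, h1⟩)
      refine ⟨by omega, ?_⟩
      have e : n + (Module.finrank ℝ (Zs f K) - Module.finrank ℝ (Zs f G)) = n + 1 := by omega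
      rw [e]
      have h1 := (hb_base (Φ := SV ι) C T Kt n).1 hb
      have h2 := (hb_cons (Φ := SV ι) C G ((fun β => (([] : List (SV ι)), β)) '' T) (by
        rintro _ ⟨β, _, rfl⟩ ⟨q, _, h3⟩
        rw [Prod.mk.injEq] at h3
        exact absurd h3.1 (by simp)) Kt n).1 h1
      convert h2 using 1
      ext p
      constructor
      · rintro ⟨L, hL, h3, h4⟩
        have : L = [] := by
          cases L with
          | nil => rfl
          | cons a L => exact absurd ⟨a, hL.2 a (by simp)⟩ hemp
        subst this
        refine ⟨([], p.2), ⟨p.2, h4, rfl⟩, ?_⟩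
        show ([G], p.2) = p
        rw [← List.nil_append [G], ← h3]
      · rintro ⟨_, ⟨β, hβ, rfl⟩, rfl⟩
        exact ⟨[], ⟨List.Pairwise.nil, by simp⟩, rfl, hβ⟩

end Pool.Agent.V8H14.MHA
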