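import Pool.Agent.V8H14.MHA.Tup
import Pool.Agent.V8H14.MHA.Sph

/-!
# The main induction: the local pieces
-/

set_option autoImplicit false

namespace Pool.Agent.V8H14.MHA

open Cx Pool.Agent.V8H40.MHA

variable {E : Type} [AddCommGroup E] [Module ℝ E] {ι : Type} [Fintype ι]
  {f : ι → (E →ₗ[ℝ] ℝ)}

/-! ## Degrees -/

theorem ZJ_empty : ZJ f (∅ : Set ι) = ⊤ := by simp [ZJ]

theorem Zs_tope (y : Topes f) : Zs f y.1 = ⊤ := by
  have : {i | y.1 i = 0} = (∅ : Set ι) := by
    ext i
    simpa using y.2.2 i
  rw [Zs, this, ZJ_empty]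

variable (f) in
/-- The summands of `degc`. -/
noncomputable def tdeg (c : ι → ℕ) (n : ℕ) : ℕ :=
  Module.finrank ℝ E - Module.finrank ℝ (ZJ f {i | n ≤ c i})

theorem tdeg_zero (c : ι → ℕ) (n : ℕ) (h : ∀ i, c i < n) : tdeg f c n = 0 := by
  have : {i | n ≤ c i} = (∅ : Set ι) := by
    ext i
    simpa using h i
  rw [tdeg, this, ZJ_empty, finrank_top, Nat.sub_self]

theorem degc_eq (c : ι → ℕ) (M : ℕ) (hM : ∀ i, c i ≤ M) :
    degc f c = ∑ n ∈ Finset.Icc 1 M, tdeg f c n := by
  have key : ∀ M', (∀ i, c i ≤ M') → ∀ M'', M' ≤ M'' →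
      ∑ n ∈ Finset.Icc 1 M', tdeg f c n = ∑ n ∈ Finset.Icc 1 M'', tdeg f c n := by
    intro M' h M'' h'
    refine Finset.sum_subset (Finset.Icc_subset_Icc_right h') ?_
    intro n h1 h2
    refine tdeg_zero c n fun i => ?_
    rw [Finset.mem_Icc] at h1 h2
    have := h i
    omega
  have h0 : ∀ i, c i ≤ ∑ i, c i := fun i => Finset.single_le_sum (fun _ _ => Nat.zero_le _)
    (Finset.mem_univ i)
  have h1 : degc f c = ∑ n ∈ Finset.Icc 1 (∑ i, c i), tdeg f c n := rfl
  rw [h1, key _ h0 (max (∑ i, c i) M) (le_max_left _ _), key _ hM (max (∑ i, c i) M) (le_max_right _ _)]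

theorem degc_zero : degc f (0 : ι → ℕ) = 0 := by
  rw [degc_eq 0 0 (fun i => le_rfl)]
  simp

open Classical in
theorem degc_succ (G : SV ι) (c c' : ι → ℕ) (h : ∀ i, c i = c' i + if G i = 0 then 1 else 0)
    (h2 : ∀ i, G i ≠ 0 → c' i = 0) :
    degc f c = (Module.finrank ℝ E - Module.finrank ℝ (Zs f G)) + degc f c' := by
  obtain ⟨M, hM⟩ : ∃ M, ∀ i, c' i ≤ M := ⟨∑ i, c' i, fun i =>
    Finset.single_le_sum (fun _ _ => Nat.zero_le _) (Finset.mem_univ i)⟩
  have hM' : ∀ i, c i ≤ M + 1 := by
    intro i
    have := hM i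
    rw [h i]
    split_ifs <;> omega
  rw [degc_eq c (M + 1) hM', degc_eq c' M hM]
  have e1 : ∑ n ∈ Finset.Icc 1 (M + 1), tdeg f c n = ∑ n ∈ Finset.range (M + 1), tdeg f c (n + 1) := by
    rw [Finset.range_eq_Ico, Finset.sum_Ico_add' (fun n => tdeg f c n) 0 (M + 1) 1]
    rfl
  have e2 : ∑ n ∈ Finset.Icc 1 M, tdeg f c' n = ∑ n ∈ Finset.range M, tdeg f c' (n + 1) := by
    rw [Finset.range_eq_Ico, Finset.sum_Ico_add' (fun n => tdeg f c' n) 0 M 1]
    rfl
  rw [e1, e2, Finset.sum_range_succ', add_comm]
  congr 1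
  · rw [tdeg, Zs]
    have : {i | 0 + 1 ≤ c i} = {i | G i = 0} := by
      ext i
      show 0 + 1 ≤ c i ↔ G i = 0
      rw [h i]
      by_cases hG : G i = 0
      · rw [if_pos hG]
        exact ⟨fun _ => hG, fun _ => by omega⟩
      · rw [if_neg hG, h2 i hG]
        exact ⟨fun h => by omega, fun h => absurd h hG⟩
    rw [this]
  · refine Finset.sum_congr rfl fun n _ => ?_
    rw [tdeg, tdeg]
    have : {i | n + 1 + 1 ≤ c i} = {i | n + 1 ≤ c' i} := by
      ext i
      show n + 1 + 1 ≤ c i ↔ n + 1 ≤ c' i
      rw [h i]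
      by_cases hG : G i = 0
      · rw [if_pos hG]
        omega
      · rw [if_neg hG, h2 i hG]
        omega
    rw [this]

/-! ## The opposite tope in the star of a face -/

theorem neg_eq_zero_iff' {a : SignType} : -a = 0 ↔ a = 0 := by
  revert a
  decide

theorem opp_ne {a : SignType} (h : a ≠ 0) : a ≠ -a := by
  revert a
  decide

/-- The tope opposite to `y` in the star of `G`. -/
def across (y : Topes f) (G : SV ι) (hG : G ∈ Faces f) : Topes f :=
  ⟨comp G (opp y.1), comp_mem f hG (opp_mem f y.2.1), fun i => by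
    show (if G i = 0 then -(y.1 i) else G i) ≠ 0
    split_ifs with h
    · exact fun h' => y.2.2 i (by
        have : - -(y.1 i) = -0 := by rw [h']
        simpa using this)
    · exact h⟩

theorem across_zero {y : Topes f} {G : SV ι} (hG : G ∈ Faces f) {i : ι} (h : G i = 0) :
    (across y G hG).1 i = -(y.1 i) := by
  show (if G i = 0 then -(y.1 i) else G i) = _
  rw [if_pos h]

theorem across_ne {y : Topes f} {G : SV ι} (hG : G ∈ Faces f) (hle : G ≤ y.1) {i : ι}
    (h : G i ≠ 0) : (across y G hG).1 i = y.1 i := by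
  show (if G i = 0 then -(y.1 i) else G i) = _
  rw [if_neg h]
  exact (hle i).resolve_left h

theorem le_across {y : Topes f} {G : SV ι} (hG : G ∈ Faces f) : G ≤ (across y G hG).1 := by
  intro i
  by_cases h : G i = 0
  · exact Or.inl h
  · right
    show G i = (if G i = 0 then -(y.1 i) else G i)
    rw [if_neg h]

theorem exists_zero {y : Topes f} {G : SV ι} (h : G < y.1) : ∃ i, G i = 0 := by
  by_contra h'
  push Not at h'
  refine h.ne (SV.ext fun i => ?_)
  exact (h.le i).resolve_left (h' i)

theorem sign_two {a b : SignType} (ha : a ≠ 0) (hb : b ≠ 0) : a ≠ b ↔ -a = b := by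
  have : ∀ a b : SignType, a = 0 ∨ b = 0 ∨ (a ≠ b ↔ -a = b) := by decide
  rcases this a b with h | h | h
  · exact absurd h ha
  · exact absurd h hb
  · exact h

/-- The relative differentials of `y` and of the opposite tope agree on `LN`. -/
theorem rel_LN {y : Topes f} {G : SV ι} (hG : G ∈ Faces f) (hle : G ≤ y.1) (c : ι → ℕ)
    (x : List (Topes f) →₀ ℤ) (hx : x ∈ sup (LN y G c)) :
    (V f y).rel (LN y G c) x = (V f (across y G hG)).rel (LN y G c) x := by
  classical
  set w := across y G hG with hw
  rw [(V f y).rel_apply hx, (V f w).rel_apply hx]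
  have hx' : x ∈ Submodule.span ℤ ((fun a => Finsupp.single a (1 : ℤ)) '' (LN y G c)) := by
    rwa [← Finsupp.supported_eq_span_single]
  clear hx
  induction hx' using Submodule.span_induction with
  | mem x hx =>
    obtain ⟨l, ⟨h1, h2, z, l', rfl, h3⟩, rfl⟩ := hx
    simp only [Cx.d_single, one_smul, V_b]
    rw [bV_cons, bV_cons, map_sub, map_sub]
    congr 1
    cases l' with
    | nil => rw [gd_nil, gd_nil]
    | cons v l' =>
      rw [gd_cons, gd_cons]
      by_cases hg : geo y z v
      · -- then also from `w`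
        have hg' : geo w z v := by
          intro i ⟨a1, a2⟩
          by_cases hi : G i = 0
          · exact hg i ⟨h3 i hi, a2⟩
          · rw [hw, across_ne hG hle hi] at a1
            exact hg i ⟨a1, a2⟩
        rw [if_pos hg, if_pos hg']
      · rw [if_neg hg, map_zero]
        split_ifs with hg'
        · -- the cell is not in `LN`
          symm
          rw [res_eq_zero]
          intro m hm
          rw [Finsupp.single_apply, if_neg]
          rintro rfl
          obtain ⟨_, _, v', l'', e, h5⟩ := hm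
          rw [List.cons.injEq] at e
          obtain ⟨rfl, -⟩ := e
          apply hg
          intro i ⟨a1, a2⟩
          by_cases hi : G i = 0
          · have := h5 i hi
            exact a2 (sign_eq_of_ne (y.2.2 i) (z.2.2 i) (v.2.2 i) a1 this)
          · rw [← across_ne hG hle hi] at a1
            exact hg' i ⟨a1, a2⟩
        · rw [map_zero]
  | zero => simp
  | add a b _ _ ha hb => rw [map_add, map_add, map_add, map_add, ha, hb]
  | smul n a _ ha => rw [map_smul, map_smul, map_smul, map_smul, ha]

open Classical in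
theorem cross_across {y : Topes f} {G : SV ι} (hG : G ∈ Faces f) (hle : G ≤ y.1) (c c' : ι → ℕ)
    (hc : ∀ i, c i = c' i + if G i = 0 then 1 else 0) (z : Topes f) (l : List (Topes f))
    (h : ∀ i, G i = 0 → y.1 i ≠ z.1 i) :
    cross y (z :: l) = c ↔ cross (across y G hG) (z :: l) = c' := by
  have key : ∀ i, cross y (z :: l) i = cross (across y G hG) (z :: l) i + if G i = 0 then 1 else 0 := by
    intro i
    simp only [cross]
    by_cases hi : G i = 0
    · rw [if_pos (h i hi), if_pos hi, if_neg]
      · omega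
      · rw [across_zero hG hi, not_not]
        exact (sign_two (y.2.2 i) (z.2.2 i)).1 (h i hi)
    · rw [if_neg hi, across_ne hG hle hi, add_zero]
  constructor
  · intro h1
    funext i
    have h2 := key i
    rw [h1, hc i] at h2
    omega
  · intro h1
    funext i
    rw [key i, h1, hc i]

open Classical in
/-- The splitting of the tuples `(w, z, ...)`. -/
theorem split_LP {y : Topes f} {G : SV ι} (hG : G ∈ Faces f) (hlt : G < y.1) (c c' : ι → ℕ)
    (hc : ∀ i, c i = c' i + if G i = 0 then 1 else 0) :
    Split (V f (across y G hG)) (LP (across y G hG) c') (LD (across y G hG) G c') (LN y G c) := by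
  have hle := hlt.le
  obtain ⟨i₀, hi₀⟩ := exists_zero hlt
  refine ⟨(closed_LP _ _).lc, ?_, ?_, ?_⟩
  · intro l
    constructor
    · rintro ⟨h1, z, l', rfl, h2⟩
      by_cases h3 : ∃ i, G i = 0 ∧ (across y G hG).1 i ≠ z.1 i
      · left
        obtain ⟨i, hi, hi2⟩ := h3
        exact ⟨⟨topes_ne.2 ⟨i, hi2⟩, h2⟩, h1, z, l', rfl, i, hi, hi2⟩
      · right
        push Not at h3
        have h4 : ∀ i, G i = 0 → y.1 i ≠ z.1 i := by
          intro i hi
          rw [← h3 i hi, across_zero hG hi]
          exact opp_ne (y.2.2 i)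
        refine ⟨⟨topes_ne.2 ⟨i₀, h4 i₀ hi₀⟩, h2⟩, ?_, z, l', rfl, h4⟩
        exact (cross_across hG hle c c' hc z l' h4).2 h1
    · rintro (⟨h1, h2, z, l', rfl, -⟩ | ⟨h1, h2, z, l', rfl, h4⟩)
      · exact ⟨h2, z, l', rfl, h1.2⟩
      · exact ⟨(cross_across hG hle c c' hc z l' h4).1 h2, z, l', rfl, h1.2⟩
  · rintro l ⟨_, _, z, l', rfl, i, hi, hi2⟩ ⟨_, _, z', l'', e, h4⟩
    rw [List.cons.injEq] at e
    obtain ⟨rfl, -⟩ := e
    have := h4 i hi
    rw [across_zero hG hi] at hi2
    exact hi2 ((sign_two (y.2.2 i) (z.2.2 i)).1 this)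
  · intro l hl m hm h'
    obtain ⟨_, _, z, l', rfl, i, hi, hi2⟩ := closed_LD _ _ _ l hl m hm
    obtain ⟨_, _, z', l'', e, h4⟩ := h'
    rw [List.cons.injEq] at e
    obtain ⟨rfl, -⟩ := e
    have := h4 i hi
    rw [across_zero hG hi] at hi2
    exact hi2 ((sign_two (y.2.2 i) (z.2.2 i)).1 this)

theorem LN_empty {y : Topes f} {G : SV ι} (c : ι → ℕ) (h : ∃ i, G i = 0 ∧ c i = 0) :
    LN y G c = ∅ := by
  classical
  ext l
  constructor
  · rintro ⟨_, h2, z, l', rfl, h3⟩
    obtain ⟨i, hi, hi2⟩ := h
    rw [← h2] at hi2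
    simp only [cross, if_pos (h3 i hi)] at hi2
    omega
  · intro h
    exact absurd h (Set.notMem_empty l)

open Classical in
theorem LN_single {y : Topes f} {G : SV ι} (hG : G ∈ Faces f) (hlt : G < y.1) (c : ι → ℕ)
    (hc : ∀ i, c i = if G i = 0 then 1 else 0) : LN y G c = {[across y G hG]} := by
  ext l
  rw [Set.mem_singleton_iff]
  constructor
  · rintro ⟨h1, h2, z, l', rfl, h3⟩
    have h4 : z = across y G hG := by
      refine Subtype.ext (SV.ext fun i => ?_)
      by_cases hi : G i = 0
      · rw [across_zero hG hi]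
        exact ((sign_two (y.2.2 i) (z.2.2 i)).1 (h3 i hi)).symm
      · rw [across_ne hG hlt.le hi]
        by_contra h5
        have h6 := congrFun h2 i
        rw [hc i, if_neg hi] at h6
        simp only [cross] at h6
        rw [if_pos (Ne.symm h5)] at h6
        omega
    have h5 : l' = [] := by
      cases l' with
      | nil => rfl
      | cons x l' =>
        exfalso
        obtain ⟨i, hi⟩ := topes_ne.1 h1.2.1
        have h6 := congrFun h2 i
        rw [hc i] at h6
        simp only [cross] at h6
        rw [if_pos hi] at h6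
        by_cases hGi : G i = 0
        · rw [if_pos hGi, if_pos (h3 i hGi)] at h6
          omega
        · rw [if_neg hGi] at h6
          omega
    rw [h4, h5]
  · rintro rfl
    obtain ⟨i₀, hi₀⟩ := exists_zero hlt
    have h3 : ∀ i, G i = 0 → y.1 i ≠ (across y G hG).1 i := by
      intro i hi
      rw [across_zero hG hi]
      exact opp_ne (y.2.2 i)
    refine ⟨⟨topes_ne.2 ⟨i₀, h3 i₀ hi₀⟩, trivial⟩, ?_, _, [], rfl, h3⟩
    funext i
    rw [hc i]
    simp only [cross]
    by_cases hi : G i = 0
    · rw [if_pos hi, if_pos (h3 i hi)]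
      rfl
    · rw [if_neg hi, if_neg]
      · rfl
      · rw [not_not, across_ne hG hlt.le hi]

theorem hb_one_cell {X : Type} {C : Cx X} (x : X) (hx : x ∉ (C.b x).support) :
    C.HB {x} Unit (C.deg x) := by
  classical
  have hrel : ∀ y ∈ sup ({x} : Set X), C.rel {x} y = 0 := by
    intro y hy
    rw [C.rel_apply hy]
    exact C.res_d_eq_zero (S := {x}) (fun a ha b hb hb' => by
      rw [Set.mem_singleton_iff] at ha hb'
      subst ha
      subst hb'
      exact hx hb) hy
  refine ⟨Finsupp.lmapDomain ℤ ℤ (fun _ => x), ?_, ?_, ?_, ?_⟩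
  · intro m
    rw [Finsupp.lmapDomain_apply, mem_sup_iff]
    intro a ha
    obtain ⟨b, _, rfl⟩ := Finset.mem_image.1 (Finsupp.mapDomain_support ha)
    exact ⟨rfl, rfl⟩
  · intro m
    refine hrel _ ?_
    rw [Finsupp.lmapDomain_apply, mem_sup_iff]
    intro a ha
    obtain ⟨b, _, rfl⟩ := Finset.mem_image.1 (Finsupp.mapDomain_support ha)
    rfl
  · intro y hy _
    refine ⟨Finsupp.single () (y x), 0, Submodule.zero_mem _, ?_⟩
    rw [map_zero, add_zero, Finsupp.lmapDomain_apply, Finsupp.mapDomain_single]
    ext a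
    rw [Finsupp.single_apply]
    split_ifs with h
    · rw [h]
    · exact mem_sup'.1 hy a fun h' => h h'.symm
  · intro m u hu h
    rw [hrel u hu, Finsupp.lmapDomain_apply] at h
    have h1 : m = Finsupp.single () (m ()) := by
      ext a
      simp
    rw [h1, Finsupp.mapDomain_single] at h
    have := DFunLike.congr_fun h x
    rw [Finsupp.single_eq_same] at this
    rw [h1, this, Finsupp.zero_apply, Finsupp.single_zero]

/-- Goodness is inherited by the opposite tope. -/
theorem good_across {y : Topes f} {G : SV ι} (hG : G ∈ Faces f) (hle : G ≤ y.1) (c c' : ι → ℕ)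
    (hc : ∀ i, G i = 0 → c i = c' i + 1) (hs : ∀ i, G i ≠ 0 → c i = 0 ∧ c' i = 0) :
    good (across y G hG) c' ↔ good y c := by
  -- transport of faces
  have htr : ∀ (u : Topes f) (F : SV ι), F ∈ Faces f → G ≤ F → F ≤ u.1 →
      ∃ F' ∈ Faces f, (∀ i, F' i = 0 ↔ F i = 0) ∧ (∀ i, G i ≠ 0 → F' i = F i) ∧
        ∀ i, G i = 0 → F' i = -(F i) := by
    intro u F hF hGF _
    refine ⟨comp G (opp F), comp_mem f hG (opp_mem f hF), ?_, ?_, ?_⟩
    · intro i
      show (if G i = 0 then -(F i) else G i) = 0 ↔ _
      split_ifs with h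
      · rw [neg_eq_zero_iff']
      · constructor
        · intro h'; exact absurd h' h
        · intro h'
          rcases hGF i with h1 | h1
          · exact h1
          · exact h1.trans h'
    · intro i h
      show (if G i = 0 then -(F i) else G i) = F i
      rw [if_neg h]
      exact (hGF i).resolve_left h
    · intro i h
      show (if G i = 0 then -(F i) else G i) = -(F i)
      rw [if_pos h]
  constructor
  · intro h n hn
    rcases Nat.lt_or_ge n 2 with h2 | h2
    · -- n = 1: the face G
      have : n = 1 := by omega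
      subst this
      refine ⟨G, hG, hle, fun i => ?_⟩
      by_cases hi : G i = 0
      · rw [hc i hi]
        exact ⟨fun _ => by omega, fun _ => hi⟩
      · rw [(hs i hi).1]
        exact ⟨fun h' => absurd h' hi, fun h' => by omega⟩
    · obtain ⟨F, hF, hFw, hF0⟩ := h (n - 1) (by omega)
      have hGF : G ≤ F := by
        intro i
        by_cases hi : G i = 0
        · exact Or.inl hi
        · right
          have h0 : F i ≠ 0 := by
            intro h'
            have := (hF0 i).1 h'
            rw [(hs i hi).2] at this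
            omega
          have h1 := (hFw i).resolve_left h0
          rw [across_ne hG hle hi] at h1
          rw [h1]
          exact (hle i).resolve_left hi
      obtain ⟨F', hF', e1, e2, e3⟩ := htr _ F hF hGF hFw
      refine ⟨F', hF', ?_, ?_⟩
      · intro i
        by_cases h0 : F i = 0
        · exact Or.inl ((e1 i).2 h0)
        · right
          have h1 := (hFw i).resolve_left h0
          by_cases hi : G i = 0
          · rw [e3 i hi, h1, across_zero hG hi, neg_neg]
          · rw [e2 i hi, h1, across_ne hG hle hi]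
      · intro i
        rw [e1, hF0]
        by_cases hi : G i = 0
        · rw [hc i hi]
          omega
        · rw [(hs i hi).1, (hs i hi).2]
          omega
  · intro h n hn
    obtain ⟨F, hF, hFy, hF0⟩ := h (n + 1) (by omega)
    have hGF : G ≤ F := by
      intro i
      by_cases hi : G i = 0
      · exact Or.inl hi
      · right
        have h0 : F i ≠ 0 := by
          intro h'
          have := (hF0 i).1 h'
          rw [(hs i hi).1] at this
          omega
        rw [(hFy i).resolve_left h0]
        exact (hle i).resolve_left hi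
    obtain ⟨F', hF', e1, e2, e3⟩ := htr _ F hF hGF hFy
    refine ⟨F', hF', ?_, ?_⟩
    · intro i
      by_cases h0 : F i = 0
      · exact Or.inl ((e1 i).2 h0)
      · right
        have h1 := (hFy i).resolve_left h0
        by_cases hi : G i = 0
        · rw [e3 i hi, h1, across_zero hG hi]
        · rw [e2 i hi, h1, across_ne hG hle hi]
    · intro i
      rw [e1, hF0]
      by_cases hi : G i = 0
      · rw [hc i hi]
        omega
      · rw [(hs i hi).1, (hs i hi).2]
        omega

end Pool.Agent.V8H14.MHA
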