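import Pool.Agent.V8H14.MHA.Fib

/-!
# Lists of letters over a based complex
-/

set_option autoImplicit false

namespace Pool.Agent.V8H14.MHA

namespace Cx

variable {Φ B : Type}

/-- Prepending a letter to the first component. -/
noncomputable def consP (a : Φ) : (List Φ × B →₀ ℤ) →ₗ[ℤ] (List Φ × B →₀ ℤ) :=
  Finsupp.lmapDomain ℤ ℤ fun p => (a :: p.1, p.2)

theorem consP_single (a : Φ) (p : List Φ × B) (n : ℤ) :
    consP a (Finsupp.single p n) = Finsupp.single (a :: p.1, p.2) n := by
  rw [consP, Finsupp.lmapDomain_apply, Finsupp.mapDomain_single]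

variable (C : Cx B)

/-- The boundary of `(L, β)`. -/
noncomputable def bJ : List Φ → B → (List Φ × B →₀ ℤ)
  | [], β => Finsupp.mapDomain (fun β => (([] : List Φ), β)) (C.b β)
  | a :: L, β => Finsupp.single (L, β) 1 - consP a (bJ L β)

theorem supp_bJ {L : List Φ} {β : B} {p : List Φ × B} (hp : p ∈ (C.bJ L β).support) :
    (p.2 = β ∧ p.1.Sublist L ∧ p.1.length + 1 = L.length) ∨ (p.1 = L ∧ p.2 ∈ (C.b β).support) := by
  classical
  induction L generalizing p with
  | nil =>
    rw [bJ] at hp
    obtain ⟨c, hc, rfl⟩ := Finset.mem_image.1 (Finsupp.mapDomain_support hp)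
    exact Or.inr ⟨rfl, hc⟩
  | cons a L ih =>
    rw [bJ] at hp
    rcases Finset.mem_union.1 (Finsupp.support_sub hp) with h | h
    · have := Finsupp.support_single_subset h
      rw [Finset.mem_singleton] at this
      subst this
      exact Or.inl ⟨rfl, List.sublist_cons_self a L, by simp⟩
    · rw [consP, Finsupp.lmapDomain_apply] at h
      obtain ⟨q, hq, rfl⟩ := Finset.mem_image.1 (Finsupp.mapDomain_support h)
      rcases ih hq with ⟨h1, h2, h3⟩ | ⟨h1, h2⟩
      · refine Or.inl ⟨h1, h2.cons_cons a, ?_⟩
        simp only [List.length_cons]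
        omega
      · refine Or.inr ⟨?_, h2⟩
        show a :: q.1 = a :: L
        rw [h1]

theorem dJ_consP (a : Φ) (x : List Φ × B →₀ ℤ) :
    Finsupp.linearCombination ℤ (fun p : List Φ × B => C.bJ p.1 p.2) (consP a x) =
      x - consP a (Finsupp.linearCombination ℤ (fun p : List Φ × B => C.bJ p.1 p.2) x) := by
  induction x using Finsupp.induction_linear with
  | zero => simp
  | add y z hy hz =>
    rw [map_add, map_add, map_add, map_add, hy, hz]
    abel
  | single p n =>
    rw [consP_single, Finsupp.linearCombination_single, Finsupp.linearCombination_single, bJ,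
      map_smul, smul_sub, Finsupp.smul_single, smul_eq_mul, mul_one]

theorem dJ_bJ (L : List Φ) (β : B) :
    Finsupp.linearCombination ℤ (fun p : List Φ × B => C.bJ p.1 p.2) (C.bJ L β) = 0 := by
  induction L with
  | nil =>
    rw [bJ]
    have : ∀ y : B →₀ ℤ, Finsupp.linearCombination ℤ (fun p : List Φ × B => C.bJ p.1 p.2)
        (Finsupp.mapDomain (fun β => (([] : List Φ), β)) y) =
        Finsupp.mapDomain (fun β => (([] : List Φ), β)) (Finsupp.linearCombination ℤ C.b y) := by
      intro y
      induction y using Finsupp.induction_linear with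
      | zero => simp
      | add y z hy hz =>
        rw [Finsupp.mapDomain_add, map_add, hy, hz, map_add, Finsupp.mapDomain_add]
      | single b n =>
        rw [Finsupp.mapDomain_single, Finsupp.linearCombination_single,
          Finsupp.linearCombination_single, bJ, Finsupp.mapDomain_smul]
    rw [this, C.sq, Finsupp.mapDomain_zero]
  | cons a L ih =>
    conv_lhs => rw [bJ]
    rw [map_sub, dJ_consP, ih, map_zero, sub_zero, Finsupp.linearCombination_single, one_smul,
      sub_self]

/-- The join of the lists of letters with a based complex. -/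
noncomputable def J (Φ : Type) (C : Cx B) : Cx (List Φ × B) where
  b p := C.bJ p.1 p.2
  deg p := p.1.length + C.deg p.2
  sq p := C.dJ_bJ p.1 p.2
  hdeg p q hq := by
    rcases C.supp_bJ hq with ⟨h1, -, h3⟩ | ⟨h1, h2⟩
    · rw [h1]
      omega
    · have := C.hdeg _ _ h2
      rw [h1]
      omega

/-- The order complex. -/
theorem dL_consL (a : Φ) (x : List Φ →₀ ℤ) :
    dL (consL a x) = x - consL a (dL x) := by
  induction x using Finsupp.induction_linear with
  | zero => simp
  | add y z hy hz =>
    rw [map_add, map_add, map_add, map_add, hy, hz]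
    abel
  | single p n =>
    rw [consL, Finsupp.lmapDomain_apply, Finsupp.mapDomain_single, dL,
      Finsupp.linearCombination_single, Finsupp.linearCombination_single, bL,
      Finsupp.lmapDomain_apply, Finsupp.mapDomain_smul, smul_sub, Finsupp.smul_single, smul_eq_mul,
      mul_one, consL, Finsupp.lmapDomain_apply]

theorem supp_bL {L M : List Φ} (hp : M ∈ (bL L).support) :
    M.Sublist L ∧ M.length + 1 = L.length := by
  classical
  induction L generalizing M with
  | nil =>
    rw [bL] at hp
    simp at hp
  | cons a L ih =>
    rw [bL] at hp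
    rcases Finset.mem_union.1 (Finsupp.support_sub hp) with h | h
    · have := Finsupp.support_single_subset h
      rw [Finset.mem_singleton] at this
      subst this
      exact ⟨List.sublist_cons_self a _, by simp⟩
    · rw [consL, Finsupp.lmapDomain_apply] at h
      obtain ⟨q, hq, rfl⟩ := Finset.mem_image.1 (Finsupp.mapDomain_support h)
      obtain ⟨h1, h2⟩ := ih hq
      refine ⟨h1.cons_cons a, ?_⟩
      simp only [List.length_cons]
      omega

/-- The complex of lists. -/
noncomputable def L (Φ : Type) : Cx (List Φ) where
  b := bL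
  deg := List.length
  sq l := by
    induction l with
    | nil => simp [bL]
    | cons a l ih =>
      have h : ∀ x : List Φ →₀ ℤ, Finsupp.linearCombination ℤ bL x = dL x := fun _ => rfl
      rw [h] at ih ⊢
      conv_lhs => rw [bL]
      rw [map_sub, dL_consL, ih, map_zero, sub_zero, dL, Finsupp.linearCombination_single, one_smul,
        sub_self]
  hdeg l m hm := (supp_bL hm).2

section order

variable [PartialOrder Φ]

theorem chains_sublist {P : Set Φ} {l m : List Φ} (h : l ∈ chains P) (hm : m.Sublist l) :
    m ∈ chains P := ⟨h.1.sublist hm, fun x hx => h.2 x (hm.subset hx)⟩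

theorem chains_mono {P Q : Set Φ} (h : P ⊆ Q) {l : List Φ} (hl : l ∈ chains P) : l ∈ chains Q :=
  ⟨hl.1, fun x hx => h (hl.2 x hx)⟩

theorem closed_chains (P : Set Φ) : (L Φ).Closed (chains P) :=
  fun _ hl _ hm => chains_sublist hl (supp_bL hm).1

theorem rel_closed {X : Type} {C : Cx X} {S : Set X} (h : C.Closed S) {x : X →₀ ℤ}
    (hx : x ∈ sup S) : C.rel S x = C.d x := by
  rw [C.rel_apply hx]
  have : C.d x - res S (C.d x) = 0 := by
    ext a
    rw [Finsupp.sub_apply, res_apply]
    split_ifs with ha
    · simp
    · have : res {a} (C.d x) = 0 := by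
        refine C.res_d_eq_zero (S := S) ?_ hx
        intro y hy z hz hza
        rw [Set.mem_singleton_iff] at hza
        subst hza
        exact ha (h y hy z hz)
      rw [res_eq_zero.1 this a rfl]
      simp
  exact (sub_eq_zero.1 this).symm

theorem acy_iff (P : Set Φ) : Acy P ↔ (L Φ).Ac (chains P) := by
  have hc := closed_chains P
  constructor
  · intro h x hx hd
    rw [rel_closed hc hx] at hd
    obtain ⟨y, hy, hy2⟩ := h x hx hd
    exact ⟨y, hy, by rw [rel_closed hc hy]; exact hy2⟩
  · intro h x hx hd
    obtain ⟨y, hy, hy2⟩ := h x hx (by rw [rel_closed hc hx]; exact hd)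
    exact ⟨y, hy, by rw [rel_closed hc hy] at hy2; exact hy2⟩

end order

/-- The boundary of `(L ++ m, β)`. -/
theorem bJ_append (l m : List Φ) (β : B) :
    C.bJ (l ++ m) β = Finsupp.mapDomain (fun l' => (l' ++ m, β)) (bL l) +
      (-1 : ℤ) ^ l.length • Finsupp.mapDomain (fun q : List Φ × B => (l ++ q.1, q.2)) (C.bJ m β) := by
  induction l with
  | nil =>
    rw [bL, Finsupp.mapDomain_zero, zero_add, List.length_nil, pow_zero, one_smul]
    have : (fun q : List Φ × B => ([] ++ q.1, q.2)) = id := by
      funext q
      simp
    rw [this, Finsupp.mapDomain_id]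
    rfl
  | cons a l ih =>
    have h0 : C.bJ (a :: l ++ m) β = Finsupp.single (l ++ m, β) 1 - consP a (C.bJ (l ++ m) β) := rfl
    rw [h0, ih, bL, map_add, map_smul]
    have h1 : ∀ y : List Φ →₀ ℤ, consP a (Finsupp.mapDomain (fun l' => (l' ++ m, β)) y) =
        Finsupp.mapDomain (fun l' => (l' ++ m, β)) (consL a y) := by
      intro y
      rw [consP, consL, Finsupp.lmapDomain_apply, Finsupp.lmapDomain_apply,
        ← Finsupp.mapDomain_comp, ← Finsupp.mapDomain_comp]
      rfl
    have h2 : ∀ y : List Φ × B →₀ ℤ,
        consP a (Finsupp.mapDomain (fun q : List Φ × B => (l ++ q.1, q.2)) y) =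
        Finsupp.mapDomain (fun q : List Φ × B => (a :: l ++ q.1, q.2)) y := by
      intro y
      rw [consP, Finsupp.lmapDomain_apply, ← Finsupp.mapDomain_comp]
      rfl
    rw [h1, h2, Finsupp.mapDomain_sub, Finsupp.mapDomain_single, List.length_cons, pow_succ]
    simp only [mul_neg, mul_one, neg_smul]
    abel

section order

variable [PartialOrder Φ]

/-- Appending a fixed suffix to the chains of an acyclic poset. -/
theorem ac_append {P : Set Φ} (hP : Acy P) (m : List Φ) (hm : ∀ a m', m = a :: m' → a ∉ P)
    (β : B) : (J Φ C).Ac ((fun l => (l ++ m, β)) '' chains P) := by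
  classical
  rw [acy_iff] at hP
  refine (ac_map (C := L Φ) (C' := J Φ C) (fun l => (l ++ m, β))
    (fun p => p.1.take (p.1.length - m.length)) ?_ (chains P) 1 (by norm_num) (m.length + C.deg β)
    ?_ ?_).1 hP
  · intro l
    simp
  · intro l _
    show (l ++ m).length + C.deg β = l.length + (m.length + C.deg β)
    rw [List.length_append]
    omega
  · intro l hl
    have e1 : res (chains P) ((L Φ).b l) = bL l := by
      refine res_of_mem ?_
      rw [mem_sup_iff]
      exact fun a ha => closed_chains P l hl a ha
    rw [e1, one_smul]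
    show res _ (C.bJ (l ++ m) β) = _
    rw [bJ_append, map_add]
    have e2 : res ((fun l => (l ++ m, β)) '' chains P)
        (Finsupp.mapDomain (fun l' => (l' ++ m, β)) (bL l)) =
        Finsupp.mapDomain (fun l' => (l' ++ m, β)) (bL l) := by
      refine res_of_mem ?_
      rw [mem_sup_iff]
      intro a ha
      obtain ⟨b, hb, rfl⟩ := Finset.mem_image.1 (Finsupp.mapDomain_support ha)
      exact ⟨b, closed_chains P l hl b hb, rfl⟩
    rw [e2]
    have e3 : res ((fun l => (l ++ m, β)) '' chains P)
        ((-1 : ℤ) ^ l.length • Finsupp.mapDomain (fun q : List Φ × B => (l ++ q.1, q.2))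
          (C.bJ m β)) = 0 := by
      rw [res_eq_zero]
      rintro _ ⟨l', hl', rfl⟩
      rw [Finsupp.smul_apply]
      have : (l' ++ m, β) ∉ (Finsupp.mapDomain (fun q : List Φ × B => (l ++ q.1, q.2))
          (C.bJ m β)).support := by
        intro h
        obtain ⟨q, hq, hq2⟩ := Finset.mem_image.1 (Finsupp.mapDomain_support h)
        rw [Prod.mk.injEq] at hq2
        obtain ⟨h1, h2⟩ := hq2
        rcases C.supp_bJ hq with ⟨_, h4, h5⟩ | ⟨_, h4⟩
        · -- the case of a deletion in `m`
          cases m with
          | nil => simp at h5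
          | cons a m' =>
            have hlen : q.1.length = m'.length := by
              simp only [List.length_cons] at h5
              omega
            have h6 : l ++ q.1 = (l' ++ [a]) ++ m' := by
              rw [h1]; simp
            have h7 : l = l' ++ [a] := (List.append_inj' h6 hlen).1
            have ha : a ∈ P := hl.2 a (by rw [h7]; simp)
            exact hm a m' rfl ha
        · rw [h2] at h4
          have := C.hdeg _ _ h4
          omega
      rw [Finsupp.notMem_support_iff.1 this, smul_zero]
    rw [e3, add_zero]

end order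

/-- Prepending a letter. -/
theorem hb_cons (a : Φ) (S : Set (List Φ × B)) (hS : ∀ p ∈ S, p ∉ (fun p : List Φ × B => (a :: p.1, p.2)) '' S)
    (K : Type) (n : ℕ) :
    (J Φ C).HB S K n ↔ (J Φ C).HB ((fun p : List Φ × B => (a :: p.1, p.2)) '' S) K (n + 1) := by
  classical
  refine hb_map (C := J Φ C) (C' := J Φ C) (fun p => (a :: p.1, p.2)) (fun p => (p.1.tail, p.2)) ?_ S
    (-1) (by norm_num) 1 ?_ ?_ K n
  · intro p
    rfl
  · intro p _
    show (a :: p.1).length + C.deg p.2 = p.1.length + C.deg p.2 + 1
    rw [List.length_cons]
    omega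
  · intro p hp
    show res _ (C.bJ (a :: p.1) p.2) = _
    rw [bJ, map_sub]
    have e1 : res ((fun p : List Φ × B => (a :: p.1, p.2)) '' S)
        (Finsupp.single (p.1, p.2) (1 : ℤ)) = 0 := by
      rw [res_eq_zero]
      intro q hq
      rw [Finsupp.single_apply, if_neg]
      rintro rfl
      exact hS p hp hq
    rw [e1, zero_sub, neg_one_smul]
    congr 1
    -- restriction commutes with prepending
    have : ∀ y : List Φ × B →₀ ℤ, res ((fun p : List Φ × B => (a :: p.1, p.2)) '' S) (consP a y) =
        Finsupp.mapDomain (fun p : List Φ × B => (a :: p.1, p.2)) (res S y) := by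
      intro y
      induction y using Finsupp.induction_linear with
      | zero => simp
      | add y z hy hz => rw [map_add, map_add, map_add, Finsupp.mapDomain_add, hy, hz]
      | single q k =>
        rw [consP_single]
        by_cases hq : q ∈ S
        · rw [res_of_mem (single_mem (Set.mem_image_of_mem _ hq) k), res_of_mem (single_mem hq k),
            Finsupp.mapDomain_single]
        · have h1 : res S (Finsupp.single q k) = 0 := by
            rw [res_eq_zero]
            intro r hr
            rw [Finsupp.single_apply, if_neg]
            rintro rfl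
            exact hq hr
          rw [h1, Finsupp.mapDomain_zero, res_eq_zero]
          rintro _ ⟨r, hr, rfl⟩
          rw [Finsupp.single_apply, if_neg]
          intro h2
          rw [Prod.mk.injEq] at h2
          obtain ⟨h3, h4⟩ := h2
          rw [List.cons.injEq] at h3
          exact hq (by rw [Prod.ext h3.2 h4]; exact hr)
    exact this _

/-- The base complex as the cells with empty list. -/
theorem hb_base (T : Set B) (K : Type) (n : ℕ) :
    C.HB T K n ↔ (J Φ C).HB ((fun β => (([] : List Φ), β)) '' T) K n := by
  classical
  have := hb_map (C := C) (C' := J Φ C) (fun β => (([] : List Φ), β)) (fun p => p.2) (fun _ => rfl)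
    T 1 (by norm_num) 0 (fun β _ => by
      show 0 + C.deg β = C.deg β + 0
      omega) ?_ K n
  · rw [this, add_zero]
  · intro β _
    show res _ (C.bJ [] β) = _
    rw [bJ, one_smul]
    have : ∀ y : B →₀ ℤ, res ((fun β => (([] : List Φ), β)) '' T)
        (Finsupp.mapDomain (fun β => (([] : List Φ), β)) y) =
        Finsupp.mapDomain (fun β => (([] : List Φ), β)) (res T y) := by
      intro y
      induction y using Finsupp.induction_linear with
      | zero => simp
      | add y z hy hz =>
        rw [Finsupp.mapDomain_add, map_add, map_add, Finsupp.mapDomain_add, hy, hz]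
      | single q k =>
        rw [Finsupp.mapDomain_single]
        by_cases hq : q ∈ T
        · rw [res_of_mem (single_mem (Set.mem_image_of_mem _ hq) k), res_of_mem (single_mem hq k),
            Finsupp.mapDomain_single]
        · have h1 : res T (Finsupp.single q k) = 0 := by
            rw [res_eq_zero]
            intro r hr
            rw [Finsupp.single_apply, if_neg]
            rintro rfl
            exact hq hr
          rw [h1, Finsupp.mapDomain_zero, res_eq_zero]
          rintro _ ⟨r, hr, rfl⟩
          rw [Finsupp.single_apply, if_neg]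
          intro h2
          rw [Prod.mk.injEq] at h2
          exact hq (by rw [h2.2]; exact hr)
    exact this _

end Cx

end Pool.Agent.V8H14.MHA
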