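import Pool.Agent.V8H14.MHA.Cx

/-!
# Exact sequences for sets of cells
-/

set_option autoImplicit false

namespace Pool.Agent.V8H14.MHA

namespace Cx

variable {X : Type} {C : Cx X}

/-- `S` is the disjoint union of a relatively closed `S₀` and `S₁`. -/
structure Split (C : Cx X) (S S₀ S₁ : Set X) : Prop where
  lc : C.LC S
  union : ∀ x, x ∈ S ↔ x ∈ S₀ ∨ x ∈ S₁
  disj : ∀ x ∈ S₀, x ∉ S₁
  low : ∀ x ∈ S₀, ∀ y ∈ (C.b x).support, y ∉ S₁

namespace Split

variable {S S₀ S₁ : Set X} (h : Split C S S₀ S₁)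

include h

theorem mono0 {x : X →₀ ℤ} (hx : x ∈ sup S₀) : x ∈ sup S :=
  sup_mono (fun a ha => (h.union a).2 (Or.inl ha)) hx

theorem mono1 {x : X →₀ ℤ} (hx : x ∈ sup S₁) : x ∈ sup S :=
  sup_mono (fun a ha => (h.union a).2 (Or.inr ha)) hx

theorem add_res (x : X →₀ ℤ) : res S x = res S₀ x + res S₁ x := by
  classical
  ext a
  simp only [Finsupp.add_apply, res_apply]
  by_cases h0 : a ∈ S₀
  · rw [if_pos ((h.union a).2 (Or.inl h0)), if_pos h0, if_neg (h.disj a h0), add_zero]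
  · by_cases h1 : a ∈ S₁
    · rw [if_pos ((h.union a).2 (Or.inr h1)), if_neg h0, if_pos h1, zero_add]
    · rw [if_neg (fun h' => ((h.union a).1 h').elim h0 h1), if_neg h0, if_neg h1, add_zero]

theorem decomp {x : X →₀ ℤ} (hx : x ∈ sup S) : x = res S₀ x + res S₁ x := by
  rw [← h.add_res, res_of_mem hx]

theorem res1_of0 {x : X →₀ ℤ} (hx : x ∈ sup S₀) : res S₁ x = 0 := by
  rw [res_eq_zero]
  intro a ha
  exact mem_sup'.1 hx a fun h' => h.disj a h' ha

theorem res0_of1 {x : X →₀ ℤ} (hx : x ∈ sup S₁) : res S₀ x = 0 := by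
  rw [res_eq_zero]
  intro a ha
  exact mem_sup'.1 hx a (h.disj a ha)

theorem mem0 {x : X →₀ ℤ} (hx : x ∈ sup S) (h1 : res S₁ x = 0) : x ∈ sup S₀ := by
  rw [h.decomp hx, h1, add_zero]
  exact res_mem _ _

theorem rel0 {x : X →₀ ℤ} (hx : x ∈ sup S₀) : C.rel S x = C.rel S₀ x := by
  rw [C.rel_apply (h.mono0 hx), C.rel_apply hx, h.add_res, C.res_d_eq_zero h.low hx, add_zero]

theorem rel1 {x : X →₀ ℤ} (hx : x ∈ sup S₁) : C.rel S x = C.rel S₁ x + res S₀ (C.d x) := by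
  rw [C.rel_apply (h.mono1 hx), C.rel_apply hx, h.add_res, add_comm]

theorem res1_rel {x : X →₀ ℤ} (hx : x ∈ sup S) : res S₁ (C.rel S x) = C.rel S₁ (res S₁ x) := by
  conv_lhs => rw [h.decomp hx]
  rw [map_add, map_add, h.rel0 (res_mem _ _), h.rel1 (res_mem _ _), map_add,
    h.res1_of0 (C.rel_mem _ _), h.res1_of0 (res_mem _ _), res_of_mem (C.rel_mem _ _), zero_add,
    add_zero]

theorem rr {x : X →₀ ℤ} (hx : x ∈ sup S) : C.rel S (C.rel S x) = 0 := h.lc.rel_rel hx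

theorem rr0 {x : X →₀ ℤ} (hx : x ∈ sup S₀) : C.rel S₀ (C.rel S₀ x) = 0 := by
  rw [← h.rel0 hx, ← h.rel0 (by rw [h.rel0 hx]; exact C.rel_mem _ _), h.rr (h.mono0 hx)]

/-- (X1) acyclic sub. -/
theorem hb_of_quot {J : Type} {n : ℕ} (a : C.Ac S₀) (hb : C.HB S₁ J n) : C.HB S J n := by
  classical
  obtain ⟨Z, z1, z2, z3, z4⟩ := hb
  have z1' : ∀ m, Z m ∈ sup S₁ := fun m => sup_mono Set.inter_subset_left (z1 m)
  -- corrections
  have key : ∀ j : J, ∃ v ∈ sup (S₀ ∩ {x | C.deg x = n}),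
      C.rel S₀ v = C.rel S (Z (Finsupp.single j 1)) := by
    intro j
    set z := Z (Finsupp.single j 1) with hz
    have hz1 : z ∈ sup S₁ := z1' _
    have hzn : C.comp n z = z :=
      comp_of_mem (sup_mono Set.inter_subset_right (z1 _))
    have e1 : C.rel S z = res S₀ (C.d z) := by rw [h.rel1 hz1, z2, zero_add]
    have m1 : C.rel S z ∈ sup S₀ := by rw [e1]; exact res_mem _ _
    have e2 : C.rel S₀ (C.rel S z) = 0 := by
      rw [← h.rel0 m1, h.rr (h.mono1 hz1)]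
    obtain ⟨v, hv, hv2⟩ := a _ m1 e2
    refine ⟨C.comp n v, comp_mem n hv, ?_⟩
    rcases Nat.eq_zero_or_pos n with h0 | h0
    · -- degree zero: the boundary of z vanishes
      subst h0
      have e3 : ∀ y : X →₀ ℤ, y ∈ sup {x | C.deg x = 0} → C.d y = 0 := by
        intro y hy
        have : res Set.univ (C.d y) = 0 := by
          refine C.res_d_eq_zero (S := {x | C.deg x = 0}) ?_ hy
          intro x hx w hw _
          have := C.hdeg x w hw
          have hx' : C.deg x = 0 := hx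
          omega
        rwa [res_of_mem (by rw [mem_sup']; intro a ha; exact absurd (Set.mem_univ a) ha)] at this
      have hzz : z ∈ sup {x | C.deg x = 0} := sup_mono Set.inter_subset_right (z1 _)
      have hvv : C.comp 0 v ∈ sup {x | C.deg x = 0} := res_mem _ _
      rw [C.rel_apply (sup_mono Set.inter_subset_left (comp_mem 0 hv)), e3 _ hvv, map_zero, e1,
        e3 _ hzz, map_zero]
    · obtain ⟨k, rfl⟩ : ∃ k, n = k + 1 := ⟨n - 1, by omega⟩
      rw [rel_comp, hv2, ← rel_comp, hzn]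
  choose v hv hv2 using key
  let V : (J →₀ ℤ) →ₗ[ℤ] (X →₀ ℤ) := Finsupp.linearCombination ℤ v
  have hV : ∀ m, V m ∈ sup (S₀ ∩ {x | C.deg x = n}) := by
    intro m
    refine Submodule.sum_mem _ fun j _ => Submodule.smul_mem _ _ (hv j)
  have hV0 : ∀ m, V m ∈ sup S₀ := fun m => sup_mono Set.inter_subset_left (hV m)
  have hV2 : ∀ m, C.rel S₀ (V m) = C.rel S (Z m) := by
    intro m
    have : (C.rel S₀).comp V = (C.rel S).comp Z := by
      apply Finsupp.lhom_ext'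
      intro j
      apply LinearMap.ext_ring
      simp only [LinearMap.comp_apply, Finsupp.lsingle_apply]
      rw [show V (Finsupp.single j 1) = v j by simp [V], hv2]
    exact LinearMap.congr_fun this m
  refine ⟨Z - V, ?_, ?_, ?_, ?_⟩
  · intro m
    rw [LinearMap.sub_apply]
    refine Submodule.sub_mem _ (sup_mono ?_ (z1 m)) (sup_mono ?_ (hV m))
    · exact fun a ha => ⟨(h.union a).2 (Or.inr ha.1), ha.2⟩
    · exact fun a ha => ⟨(h.union a).2 (Or.inl ha.1), ha.2⟩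
  · intro m
    rw [LinearMap.sub_apply, map_sub, h.rel0 (hV0 m), hV2, sub_self]
  · intro x hx hd
    have e1 : C.rel S₁ (res S₁ x) = 0 := by rw [← h.res1_rel hx, hd, map_zero]
    obtain ⟨m, u₁, hu₁, e2⟩ := z3 _ (res_mem _ _) e1
    have m1 : x - (Z - V) m - C.rel S u₁ ∈ sup S :=
      Submodule.sub_mem _ (Submodule.sub_mem _ hx (Submodule.sub_mem _ (h.mono1 (z1' m))
        (h.mono0 (hV0 m)))) (C.rel_mem _ _)
    have e3 : res S₁ (x - (Z - V) m - C.rel S u₁) = 0 := by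
      rw [map_sub, map_sub, h.res1_rel (h.mono1 hu₁), res_of_mem hu₁, LinearMap.sub_apply, map_sub,
        h.res1_of0 (hV0 m), res_of_mem (z1' m), e2]
      abel
    have m0 := h.mem0 m1 e3
    have e4 : C.rel S₀ (x - (Z - V) m - C.rel S u₁) = 0 := by
      rw [← h.rel0 m0, map_sub, map_sub, hd, h.rr (h.mono1 hu₁), LinearMap.sub_apply, map_sub,
        h.rel0 (hV0 m), hV2]
      simp
    obtain ⟨u₀, hu₀, e5⟩ := a _ m0 e4
    refine ⟨m, u₁ + u₀, Submodule.add_mem _ (h.mono1 hu₁) (h.mono0 hu₀), ?_⟩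
    rw [map_add, h.rel0 hu₀, e5]
    abel
  · intro m u hu e
    refine z4 m (res S₁ u) (res_mem _ _) ?_
    rw [← h.res1_rel hu, ← e, LinearMap.sub_apply, map_sub, h.res1_of0 (hV0 m), sub_zero,
      res_of_mem (z1' m)]

/-- (X2) acyclic quotient. -/
theorem hb_of_sub {J : Type} {n : ℕ} (a : C.Ac S₁) (hb : C.HB S₀ J n) : C.HB S J n := by
  obtain ⟨Z, z1, z2, z3, z4⟩ := hb
  have z1' : ∀ m, Z m ∈ sup S₀ := fun m => sup_mono Set.inter_subset_left (z1 m)
  refine ⟨Z, ?_, ?_, ?_, ?_⟩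
  · intro m
    refine sup_mono ?_ (z1 m)
    exact fun a ha => ⟨(h.union a).2 (Or.inl ha.1), ha.2⟩
  · intro m
    rw [h.rel0 (z1' m), z2]
  · intro x hx hd
    have e1 : C.rel S₁ (res S₁ x) = 0 := by rw [← h.res1_rel hx, hd, map_zero]
    obtain ⟨u₁, hu₁, e2⟩ := a _ (res_mem _ _) e1
    have m1 : x - C.rel S u₁ ∈ sup S := Submodule.sub_mem _ hx (C.rel_mem _ _)
    have e3 : res S₁ (x - C.rel S u₁) = 0 := by
      rw [map_sub, h.res1_rel (h.mono1 hu₁), res_of_mem hu₁, e2, sub_self]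
    have m0 := h.mem0 m1 e3
    have e4 : C.rel S₀ (x - C.rel S u₁) = 0 := by
      rw [← h.rel0 m0, map_sub, hd, h.rr (h.mono1 hu₁), sub_self]
    obtain ⟨m, u₀, hu₀, e5⟩ := z3 _ m0 e4
    refine ⟨m, u₁ + u₀, Submodule.add_mem _ (h.mono1 hu₁) (h.mono0 hu₀), ?_⟩
    rw [map_add, h.rel0 hu₀, add_left_comm, ← e5]
    abel
  · intro m u hu e
    have e1 : C.rel S₁ (res S₁ u) = 0 := by
      rw [← h.res1_rel hu, ← e, h.res1_of0 (z1' m)]
    obtain ⟨w₁, hw₁, e2⟩ := a _ (res_mem _ _) e1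
    have m1 : u - C.rel S w₁ ∈ sup S := Submodule.sub_mem _ hu (C.rel_mem _ _)
    have e3 : res S₁ (u - C.rel S w₁) = 0 := by
      rw [map_sub, h.res1_rel (h.mono1 hw₁), res_of_mem hw₁, e2, sub_self]
    have m0 := h.mem0 m1 e3
    refine z4 m _ m0 ?_
    rw [← h.rel0 m0, map_sub, h.rr (h.mono1 hw₁), sub_zero, e]

/-- (X3) connecting map, from the quotient to the sub. -/
theorem hb_conn {J : Type} {n : ℕ} (a : C.Ac S) (hb : C.HB S₁ J (n + 1)) : C.HB S₀ J n := by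
  classical
  obtain ⟨Z, z1, z2, z3, z4⟩ := hb
  have z1' : ∀ m, Z m ∈ sup S₁ := fun m => sup_mono Set.inter_subset_left (z1 m)
  have r0 : ∀ m, C.rel S (Z m) ∈ sup S₀ := by
    intro m
    rw [h.rel1 (z1' m), z2, zero_add]
    exact res_mem _ _
  refine ⟨(C.rel S).comp Z, ?_, ?_, ?_, ?_⟩
  · intro m
    rw [LinearMap.comp_apply]
    have e : C.comp (n + 1) (Z m) = Z m :=
      comp_of_mem (sup_mono Set.inter_subset_right (z1 m))
    have e2 : C.comp n (C.rel S (Z m)) = C.rel S (Z m) := by rw [← rel_comp, e]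
    rw [← e2]
    exact comp_mem n (r0 m)
  · intro m
    rw [LinearMap.comp_apply, ← h.rel0 (r0 m), h.rr (h.mono1 (z1' m))]
  · intro x hx hd
    rw [← h.rel0 hx] at hd
    obtain ⟨u, hu, rfl⟩ := a x (h.mono0 hx) hd
    have e1 : C.rel S₁ (res S₁ u) = 0 := by
      rw [← h.res1_rel hu, h.res1_of0 hx]
    obtain ⟨m, w₁, hw₁, e2⟩ := z3 _ (res_mem _ _) e1
    refine ⟨m, res S₀ u - res S₀ (C.d w₁), Submodule.sub_mem _ (res_mem _ _) (res_mem _ _), ?_⟩
    have e3 : C.rel S (C.rel S₁ w₁) = - C.rel S₀ (res S₀ (C.d w₁)) := by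
      have := h.rr (h.mono1 hw₁)
      rw [h.rel1 hw₁, map_add, h.rel0 (res_mem _ _)] at this
      exact eq_neg_of_add_eq_zero_left this
    conv_lhs => rw [h.decomp hu, e2]
    rw [map_add, map_add, h.rel0 (res_mem _ _), e3, map_sub, LinearMap.comp_apply]
    abel
  · intro m u hu e
    rw [LinearMap.comp_apply, ← h.rel0 hu] at e
    have e1 : C.rel S (Z m - u) = 0 := by rw [map_sub, e, sub_self]
    obtain ⟨w, hw, e2⟩ := a _ (Submodule.sub_mem _ (h.mono1 (z1' m)) (h.mono0 hu)) e1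
    refine z4 m (res S₁ w) (res_mem _ _) ?_
    rw [← h.res1_rel hw, e2, map_sub, h.res1_of0 hu, sub_zero, res_of_mem (z1' m)]

/-- (X3') connecting map, from the sub to the quotient. -/
theorem hb_conn' {J : Type} {n : ℕ} (a : C.Ac S) (hb : C.HB S₀ J n) : C.HB S₁ J (n + 1) := by
  classical
  obtain ⟨Z, z1, z2, z3, z4⟩ := hb
  have z1' : ∀ m, Z m ∈ sup S₀ := fun m => sup_mono Set.inter_subset_left (z1 m)
  have key : ∀ j : J, ∃ v ∈ sup (S ∩ {x | C.deg x = n + 1}),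
      C.rel S v = Z (Finsupp.single j 1) := by
    intro j
    have e1 : C.rel S (Z (Finsupp.single j 1)) = 0 := by rw [h.rel0 (z1' _), z2]
    obtain ⟨v, hv, hv2⟩ := a _ (h.mono0 (z1' _)) e1
    refine ⟨C.comp (n + 1) v, comp_mem _ hv, ?_⟩
    rw [rel_comp, hv2]
    exact comp_of_mem (sup_mono Set.inter_subset_right (z1 _))
  choose v hv hv2 using key
  let V : (J →₀ ℤ) →ₗ[ℤ] (X →₀ ℤ) := Finsupp.linearCombination ℤ v
  have hV : ∀ m, V m ∈ sup (S ∩ {x | C.deg x = n + 1}) := by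
    intro m
    refine Submodule.sum_mem _ fun j _ => Submodule.smul_mem _ _ (hv j)
  have hVS : ∀ m, V m ∈ sup S := fun m => sup_mono Set.inter_subset_left (hV m)
  have hV2 : ∀ m, C.rel S (V m) = Z m := by
    intro m
    have : (C.rel S).comp V = Z := by
      apply Finsupp.lhom_ext'
      intro j
      apply LinearMap.ext_ring
      simp only [LinearMap.comp_apply, Finsupp.lsingle_apply]
      rw [show V (Finsupp.single j 1) = v j by simp [V], hv2]
    exact LinearMap.congr_fun this m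
  refine ⟨(res S₁).comp V, ?_, ?_, ?_, ?_⟩
  · intro m
    rw [LinearMap.comp_apply, mem_sup']
    intro x hx
    rw [res_apply]
    split_ifs with h1
    · exact mem_sup'.1 (hV m) x fun h2 => hx ⟨h1, h2.2⟩
    · rfl
  · intro m
    rw [LinearMap.comp_apply, ← h.res1_rel (hVS m), hV2, h.res1_of0 (z1' m)]
  · intro x hx hd
    have e0 : C.rel S x = res S₀ (C.d x) := by rw [h.rel1 hx, hd, zero_add]
    have m0 : C.rel S x ∈ sup S₀ := by rw [e0]; exact res_mem _ _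
    have e1 : C.rel S₀ (C.rel S x) = 0 := by rw [← h.rel0 m0, h.rr (h.mono1 hx)]
    obtain ⟨m, u₀, hu₀, e2⟩ := z3 _ m0 e1
    have e3 : C.rel S (x - V m - u₀) = 0 := by
      rw [map_sub, map_sub, hV2, h.rel0 hu₀, e2]
      abel
    obtain ⟨w, hw, e4⟩ := a _ (Submodule.sub_mem _ (Submodule.sub_mem _ (h.mono1 hx) (hVS m))
      (h.mono0 hu₀)) e3
    refine ⟨m, res S₁ w, res_mem _ _, ?_⟩
    rw [← h.res1_rel hw, e4, map_sub, map_sub, h.res1_of0 hu₀, res_of_mem hx,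
      LinearMap.comp_apply]
    abel
  · intro m w hw e
    rw [LinearMap.comp_apply] at e
    have m1 : V m - C.rel S w ∈ sup S := Submodule.sub_mem _ (hVS m) (C.rel_mem _ _)
    have e1 : res S₁ (V m - C.rel S w) = 0 := by
      rw [map_sub, h.res1_rel (h.mono1 hw), res_of_mem hw, e, sub_self]
    have m0 := h.mem0 m1 e1
    refine z4 m _ m0 ?_
    rw [← h.rel0 m0, map_sub, h.rr (h.mono1 hw), sub_zero, hV2]

theorem ac (a0 : C.Ac S₀) (a1 : C.Ac S₁) : C.Ac S :=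
  (h.hb_of_quot (J := Empty) (n := 0) a0 (a1.hb _ _)).ac

theorem ac0 (a : C.Ac S) (a1 : C.Ac S₁) : C.Ac S₀ :=
  (h.hb_conn (J := Empty) (n := 0) a (a1.hb _ _)).ac

theorem ac1 (a : C.Ac S) (a0 : C.Ac S₀) : C.Ac S₁ :=
  (h.hb_conn' (J := Empty) (n := 0) a (a0.hb _ _)).ac

end Split

end Cx

end Pool.Agent.V8H14.MHA
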