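import Pool.Agent.V8H14.MHA.Ind

/-!
# The main induction
-/

set_option autoImplicit false

namespace Pool.Agent.V8H14.MHA

open Cx Pool.Agent.V8H40.MHA

variable {E : Type} [AddCommGroup E] [Module ℝ E] {ι : Type} [Fintype ι]
  {f : ι → (E →ₗ[ℝ] ℝ)}

/-- The faces `G ≥ F` of `y` all of whose hyperplanes separate `y` and `z`. -/
def KK (y : Topes f) (F : SV ι) (z : Topes f) : Set (SV ι) :=
  {G | G ∈ Faces f ∧ F ≤ G ∧ G < y.1 ∧ ∀ i, G i = 0 → y.1 i ≠ z.1 i}

/-- The resolving cells. -/
def EP (y : Topes f) (F : SV ι) (c : ι → ℕ) : Set (List (SV ι) × List (Topes f)) :=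
  {p | p.2 ∈ LD y F c ∧ ∃ z l', p.2 = z :: l' ∧ p.1 ∈ chains (KK y F z)}

theorem closed_EP (y : Topes f) (F : SV ι) (c : ι → ℕ) : (J (SV ι) (V f y)).Closed (EP y F c) := by
  rintro p ⟨h1, z, l', h2, h3⟩ q hq
  rcases (V f y).supp_bJ hq with ⟨g1, g2, _⟩ | ⟨g1, g2⟩
  · exact ⟨by rw [g1]; exact h1, z, l', by rw [g1]; exact h2, chains_sublist h3 g2⟩
  · refine ⟨closed_LD y F c _ h1 _ g2, ?_⟩
    have g3 : q.2 ∈ (bV y p.2).support := g2
    rw [h2] at g3
    rcases supp_bV g3 with ⟨e1, x, l'', e2, hg⟩ | ⟨m', hm', e1⟩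
    · refine ⟨x, l'', e1.trans e2, ?_⟩
      rw [g1]
      refine ⟨h3.1, fun a ha => ?_⟩
      obtain ⟨a1, a2, a3, a4⟩ := h3.2 a ha
      exact ⟨a1, a2, a3, fun i hi => hg.ne (a4 i hi)⟩
    · exact ⟨z, m', e1, by rw [g1]; exact h3⟩

theorem ac_EP (y : Topes f) (F : SV ι) (hF : F ∈ Faces f) (hFy : F ≤ y.1) (c : ι → ℕ) :
    (J (SV ι) (V f y)).Ac (EP y F c) := by
  refine ac_fibers (closed_EP y F c).lc (fun p => p.2) List.length ?_ ?_
  · intro p _ q hq _
    rcases (V f y).supp_bJ hq with ⟨g1, _, _⟩ | ⟨_, g2⟩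
    · exact Or.inl g1
    · right
      have := (V f y).hdeg _ _ g2
      have h' : q.2.length + 1 = p.2.length := this
      omega
  · intro l
    by_cases hl : l ∈ LD y F c
    · obtain ⟨z, l', e, i, hi, hi2⟩ := hl.2.2
      have hK : Acy (KK y F z) := acy_visible f y.1 z.1 F y.2.1 z.2.1 y.2.2 z.2.2 hF hFy ⟨i, hi, hi2⟩
      have := ac_append (Φ := SV ι) (V f y) hK [] (fun a m' hm => by simp at hm) l
      convert this using 1
      ext p
      constructor
      · rintro ⟨⟨h1, z', l'', e', h3⟩, h4⟩
        have h4' : p.2 = l := h4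
        rw [h4', e, List.cons.injEq] at e'
        obtain ⟨rfl, -⟩ := e'
        refine ⟨p.1, h3, ?_⟩
        show (p.1 ++ [], l) = p
        rw [List.append_nil, ← h4']
      · rintro ⟨L, hL, rfl⟩
        refine ⟨⟨hl, z, l', e, ?_⟩, rfl⟩
        show L ++ [] ∈ _
        rw [List.append_nil]
        exact hL
    · convert ac_empty (C := J (SV ι) (V f y)) using 1
      ext p
      constructor
      · rintro ⟨⟨h1, -⟩, h4⟩
        have h4' : p.2 = l := h4
        rw [h4'] at h1
        exact absurd h1 hl
      · intro h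
        exact absurd h (Set.notMem_empty p)

/-- The nonempty resolving cells. -/
def EQ (y : Topes f) (F : SV ι) (c : ι → ℕ) : Set (List (SV ι) × List (Topes f)) :=
  {p | p ∈ EP y F c ∧ p.1 ≠ []}

theorem split_EP (y : Topes f) (F : SV ι) (c : ι → ℕ) :
    Split (J (SV ι) (V f y)) (EP y F c) ((fun l => (([] : List (SV ι)), l)) '' LD y F c)
      (EQ y F c) := by
  refine ⟨(closed_EP y F c).lc, ?_, ?_, ?_⟩
  · intro p
    constructor
    · intro h
      by_cases h1 : p.1 = []
      · left
        refine ⟨p.2, h.1, ?_⟩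
        show ([], p.2) = p
        rw [← h1]
      · exact Or.inr ⟨h, h1⟩
    · rintro (⟨l, hl, rfl⟩ | h)
      · obtain ⟨z, l', e, _⟩ := hl.2.2
        exact ⟨hl, z, l', e, List.Pairwise.nil, by simp⟩
      · exact h.1
  · rintro p ⟨l, _, rfl⟩ ⟨_, h⟩
    exact h rfl
  · rintro p ⟨l, _, rfl⟩ q hq ⟨_, h⟩
    rcases (V f y).supp_bJ hq with ⟨_, _, g⟩ | ⟨g, _⟩
    · simp at g
    · exact h g

open Classical in
/-- The height function of the filtration of `EQ` by the least face. -/
noncomputable def htO : Option (SV ι) → ℕ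
  | none => 0
  | some G => (Finset.univ.filter fun i => G i = 0).card

theorem zeros_lt {G G' : SV ι} (h : G < G') : htO (some G') < htO (some G) := by
  classical
  refine Finset.card_lt_card ?_
  rw [Finset.ssubset_iff_of_subset]
  · obtain ⟨i, hi⟩ : ∃ i, G i ≠ G' i := by
      by_contra h'
      push Not at h'
      exact h.ne (SV.ext h')
    refine ⟨i, ?_, ?_⟩
    · simp only [Finset.mem_filter, Finset.mem_univ, true_and]
      exact (h.le i).resolve_right hi
    · simp only [Finset.mem_filter, Finset.mem_univ, true_and]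
      intro h0
      exact hi (((h.le i).resolve_right hi).trans h0.symm)
  · intro i hi
    simp only [Finset.mem_filter, Finset.mem_univ, true_and] at hi ⊢
    rcases h.le i with h1 | h1
    · exact h1
    · exact h1.trans hi

theorem ex_last {α : Type} {L : List α} (h : L ≠ []) : ∃ G, L.getLast? = some G := by
  cases h' : L.getLast? with
  | none => exact absurd (List.getLast?_eq_none_iff.1 h') h
  | some G => exact ⟨G, rfl⟩

theorem last_decr {L : List (SV ι)} (hL : L.Pairwise (fun a b => b < a)) {G : SV ι}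
    (h : L.getLast? = some G) : ∃ L', L = L' ++ [G] ∧ ∀ x ∈ L', G < x := by
  obtain ⟨L', rfl⟩ := List.getLast?_eq_some_iff.1 h
  refine ⟨L', rfl, ?_⟩
  intro x hx
  exact (List.pairwise_append.1 hL).2.2 x hx G (by simp)

theorem lc_EQ (y : Topes f) (F : SV ι) (c : ι → ℕ) : (J (SV ι) (V f y)).LC (EQ y F c) := by
  have : EQ y F c = EP y F c \ {p | p.1 = []} := by
    ext p
    constructor
    · rintro ⟨h1, h2⟩
      exact ⟨h1, h2⟩
    · rintro ⟨h1, h2⟩
      exact ⟨h1, h2⟩
  rw [this]
  refine (closed_EP y F c).lc.diff ?_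
  intro p hp q hq
  have hp' : p.1 = [] := hp
  rcases (V f y).supp_bJ hq with ⟨_, _, g⟩ | ⟨g, _⟩
  · rw [hp'] at g
    simp at g
  · show q.1 = []
    rw [g, hp']

theorem mono_EQ (y : Topes f) (F : SV ι) (c : ι → ℕ) : ∀ p ∈ EQ y F c,
    ∀ q ∈ ((J (SV ι) (V f y)).b p).support, q ∈ EQ y F c →
      q.1.getLast? = p.1.getLast? ∨ htO q.1.getLast? < htO p.1.getLast? := by
  rintro p ⟨⟨h1, z, l', e, h3⟩, h4⟩ q hq ⟨_, g4⟩
  rcases (V f y).supp_bJ hq with ⟨_, g, _⟩ | ⟨g, _⟩
  · obtain ⟨G, hG⟩ := ex_last h4
    obtain ⟨G', hG'⟩ := ex_last g4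
    obtain ⟨L, e1, e2⟩ := last_decr h3.1 hG
    obtain ⟨L', e3⟩ := List.getLast?_eq_some_iff.1 hG'
    have h5 : G' ∈ p.1 := g.subset (by rw [e3]; simp)
    rw [hG, hG']
    rw [e1] at h5
    rcases List.mem_append.1 h5 with h | h
    · exact Or.inr (zeros_lt (e2 G' h))
    · rw [List.mem_singleton] at h
      rw [h]
      exact Or.inl rfl
  · rw [g]
    exact Or.inl rfl

/-- The fibers of the filtration of `EQ`. -/
theorem fiber_EQ (y : Topes f) (F : SV ι) (c : ι → ℕ) (G : SV ι) (hG : G ∈ Faces f)
    (hFG : F ≤ G) (hGy : G < y.1) :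
    EQ y F c ∩ {p | p.1.getLast? = some G} = IV f G y.1 (LN y G c) := by
  ext p
  constructor
  · rintro ⟨⟨⟨h1, z, l', e, h3⟩, h4⟩, h5⟩
    obtain ⟨L, e1, e2⟩ := last_decr h3.1 h5
    refine ⟨L, ⟨?_, ?_⟩, e1, h1.1, h1.2.1, z, l', e, ?_⟩
    · have := h3.1
      rw [e1, List.pairwise_append] at this
      exact this.1
    · intro x hx
      have := h3.2 x (by rw [e1]; simp [hx])
      exact ⟨this.1, e2 x hx, this.2.2.1⟩
    · exact (h3.2 G (by rw [e1]; simp)).2.2.2
  · rintro ⟨L, hL, e1, h1, h2, z, l', e, h4⟩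
    obtain ⟨i₀, hi₀⟩ := exists_zero hGy
    have hF0 : F i₀ = 0 := by
      rcases hFG i₀ with h | h
      · exact h
      · exact h.trans hi₀
    refine ⟨⟨⟨⟨h1, h2, z, l', e, i₀, hF0, h4 i₀ hi₀⟩, z, l', e, ?_, ?_⟩, ?_⟩, ?_⟩
    · rw [e1, List.pairwise_append]
      refine ⟨hL.1, List.pairwise_singleton _ _, ?_⟩
      intro a ha b hb
      rw [List.mem_singleton] at hb
      rw [hb]
      exact (hL.2 a ha).2.1
    · intro x hx
      rw [e1] at hx
      rcases List.mem_append.1 hx with h | h
      · obtain ⟨a1, a2, a3⟩ := hL.2 x h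
        refine ⟨a1, hFG.trans a2.le, a3, fun i hi => h4 i ?_⟩
        rcases a2.le i with h' | h'
        · exact h'
        · exact h'.trans hi
      · rw [List.mem_singleton] at h
        rw [h]
        exact ⟨hG, hFG, hGy, h4⟩
    · rw [e1]
      simp
    · show p.1.getLast? = some G
      rw [e1]
      simp

theorem fiber_EQ_empty (y : Topes f) (F : SV ι) (c : ι → ℕ) (w : Option (SV ι))
    (h : ¬ ∃ G ∈ Faces f, F ≤ G ∧ G < y.1 ∧ w = some G) :
    EQ y F c ∩ {p | p.1.getLast? = w} = ∅ := by
  ext p
  constructor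
  · rintro ⟨⟨⟨h1, z, l', e, h3⟩, h4⟩, h5⟩
    obtain ⟨G, hG⟩ := ex_last h4
    obtain ⟨L, e1, e2⟩ := last_decr h3.1 hG
    have := h3.2 G (by rw [e1]; simp)
    have h5' : p.1.getLast? = w := h5
    exact absurd ⟨G, this.1, this.2.1, this.2.2.1, by rw [← h5', hG]⟩ h
  · intro h
    exact absurd h (Set.notMem_empty p)

variable [FiniteDimensional ℝ E]

theorem interval_HB (y : Topes f) (G : SV ι) (hG : G ∈ Faces f) (hGy : G < y.1) (c : ι → ℕ)
    {K : Type} {n : ℕ} (hb : (V f y).HB (LN y G c) K n) :
    (J (SV ι) (V f y)).HB (IV f G y.1 (LN y G c)) K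
      (n + (Module.finrank ℝ E - Module.finrank ℝ (Zs f G))) := by
  have := (hb_interval f (closed_LN y G c) hb (Module.finrank ℝ (Zs f y.1)) G y.1 hG y.2.1 hGy
    le_rfl).2
  have e : Module.finrank ℝ (Zs f y.1) = Module.finrank ℝ E := by
    rw [Zs_tope, finrank_top]
  rwa [e] at this

/-- The main induction. -/
theorem hb_LD (N : ℕ) : ∀ c : ι → ℕ, c ≠ 0 → ∑ i, c i ≤ N → ∀ (y : Topes f) (F : SV ι),
    F ∈ Faces f → F ≤ y.1 →
    (V f y).HB (LD y F c) (PLift (good y c ∧ ∀ i, c i ≠ 0 → F i = 0)) (degc f c) := by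
  classical
  induction N with
  | zero =>
    intro c hc hN
    exfalso
    apply hc
    funext i
    have := Finset.single_le_sum (f := c) (fun _ _ => Nat.zero_le _) (Finset.mem_univ i)
    show c i = 0
    omega
  | succ N ih =>
    intro c hc hN y F hF hFy
    -- the pieces
    have hLN : ∀ G ∈ Faces f, G < y.1 →
        ((∀ i, c i ≠ 0 ↔ G i = 0) → ∃ n, n + (Module.finrank ℝ E - Module.finrank ℝ (Zs f G)) =
          degc f c + 1 ∧ (V f y).HB (LN y G c) (PLift (good y c)) n) ∧
        (¬ (∀ i, c i ≠ 0 ↔ G i = 0) → (V f y).Ac (LN y G c)) := by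
      intro G hG hGy
      by_cases h0 : ∃ i, G i = 0 ∧ c i = 0
      · refine ⟨fun h => ?_, fun _ => ?_⟩
        · obtain ⟨i, hi, hi2⟩ := h0
          exact absurd hi2 ((h i).2 hi)
        · rw [LN_empty c h0]
          exact ac_empty
      · push Not at h0
        obtain ⟨i₀, hi₀⟩ := exists_zero hGy
        set c' : ι → ℕ := fun i => c i - if G i = 0 then 1 else 0 with hc'
        have hcc : ∀ i, c i = c' i + if G i = 0 then 1 else 0 := by
          intro i
          simp only [hc']
          by_cases hi : G i = 0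
          · have := h0 i hi
            rw [if_pos hi]
            omega
          · rw [if_neg hi]
            omega
        have hrel : ∀ x ∈ sup (LN y G c), (V f y).rel (LN y G c) x =
            (V f (across y G hG)).rel (LN y G c) x := rel_LN hG hGy.le c
        by_cases hz : c' = 0
        · -- one cell
          have hc1 : ∀ i, c i = if G i = 0 then 1 else 0 := by
            intro i
            rw [hcc i, hz]
            simp
          have hsup : ∀ i, c i ≠ 0 ↔ G i = 0 := by
            intro i
            rw [hc1 i]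
            split_ifs with h
            · exact ⟨fun _ => h, fun _ => one_ne_zero⟩
            · exact ⟨fun h' => absurd rfl h', fun h' => absurd h' h⟩
          refine ⟨fun _ => ?_, fun h => absurd hsup h⟩
          have hgood : good y c := by
            intro n hn
            rcases Nat.lt_or_ge n 2 with h2 | h2
            · have : n = 1 := by omega
              subst this
              refine ⟨G, hG, hGy.le, fun i => ?_⟩
              rw [← hsup i]
              omega
            · refine ⟨y.1, y.2.1, le_rfl, fun i => ?_⟩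
              rw [hc1 i]
              constructor
              · intro h; exact absurd h (y.2.2 i)
              · intro h
                split_ifs at h <;> omega
          refine ⟨1, ?_, ?_⟩
          · have := degc_succ (f := f) G c c' hcc (fun i _ => by rw [hz]; rfl)
            rw [this, hz, degc_zero]
            omega
          · rw [LN_single hG hGy c hc1]
            have h1 := hb_one_cell (C := V f y) [across y G hG] (fun h => by
              have := (V f y).hdeg _ _ h
              omega)
            have h2 : (V f y).deg [across y G hG] = 1 := rfl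
            rw [h2] at h1
            exact h1.congr ⟨fun _ => ⟨hgood⟩, fun _ => (), fun _ => rfl, fun _ => rfl⟩
        · -- the induction hypothesis for the opposite tope
          have hsum : ∑ i, c' i ≤ N := by
            have h1 : ∑ i, c i = ∑ i, c' i + ∑ i, (if G i = 0 then 1 else 0) := by
              rw [← Finset.sum_add_distrib]
              exact Finset.sum_congr rfl fun i _ => hcc i
            have h2 : 1 ≤ ∑ i, (if G i = 0 then 1 else 0) := by
              have := Finset.single_le_sum (f := fun i => if G i = 0 then 1 else 0)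
                (fun _ _ => Nat.zero_le _) (Finset.mem_univ i₀)
              simpa [hi₀] using this
            omega
          have h1 := ih c' hz hsum (across y G hG) G hG (le_across hG)
          have hsp := split_LP hG hGy c c' hcc
          have h2 := hsp.hb_conn' (ac_LP _ _ hz) h1
          have h3 := h2.congr_cx (C' := V f y) hrel (fun _ => rfl)
          refine ⟨fun hsup => ?_, fun hsup => ?_⟩
          · have hs : ∀ i, G i ≠ 0 → c i = 0 ∧ c' i = 0 := by
              intro i hi
              have h4 : c i = 0 := by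
                by_contra h5
                exact hi ((hsup i).1 h5)
              refine ⟨h4, ?_⟩
              have := hcc i
              omega
            refine ⟨degc f c' + 1, ?_, ?_⟩
            · rw [degc_succ (f := f) G c c' hcc (fun i hi => (hs i hi).2)]
              omega
            · refine h3.congr ?_
              have h5 := good_across (y := y) hG hGy.le c c' (fun i hi => by
                rw [hcc i, if_pos hi]) hs
              refine ⟨fun h => ⟨h5.1 h.down.1⟩, fun h => ⟨h5.2 h.down, fun i hi => ?_⟩,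
                fun _ => rfl, fun _ => rfl⟩
              by_contra h6
              exact hi (hs i h6).2
          · have : IsEmpty (PLift (good (across y G hG) c' ∧ ∀ i, c' i ≠ 0 → G i = 0)) := by
              refine ⟨fun h => hsup fun i => ⟨fun h6 => ?_, fun h6 => h0 i h6⟩⟩
              by_contra h7
              refine h7 (h.down.2 i ?_)
              have := hcc i
              rw [if_neg h7] at this
              omega
            exact h3.ac
    -- the nonempty resolving cells
    have hE : (J (SV ι) (V f y)).HB (EQ y F c)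
        (PLift (good y c ∧ ∀ i, c i ≠ 0 → F i = 0)) (degc f c + 1) := by
      have hoth : ∀ w : Option (SV ι), (∀ G, w = some G → G ≤ y.1 → ¬ (∀ i, c i ≠ 0 ↔ G i = 0)) →
          (J (SV ι) (V f y)).Ac (EQ y F c ∩ {p | p.1.getLast? = w}) := by
        intro w hw
        by_cases hex : ∃ G ∈ Faces f, F ≤ G ∧ G < y.1 ∧ w = some G
        · obtain ⟨G, hG, hFG, hGy, rfl⟩ := hex
          rw [fiber_EQ y F c G hG hFG hGy]
          have h1 := (hLN G hG hGy).2 (hw G rfl hGy.le)
          exact (interval_HB y G hG hGy c (h1.hb Empty 0)).ac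
        · rw [fiber_EQ_empty y F c w hex]
          exact ac_empty
      by_cases hex : ∃ G ∈ Faces f, F ≤ G ∧ G ≤ y.1 ∧ ∀ i, c i ≠ 0 ↔ G i = 0
      · obtain ⟨G, hG, hFG, hGy, hsup⟩ := hex
        have hGy' : G < y.1 := by
          refine lt_of_le_of_ne hGy ?_
          rintro rfl
          apply hc
          funext i
          by_contra h
          exact y.2.2 i ((hsup i).1 h)
        obtain ⟨n, hn, hb⟩ := (hLN G hG hGy').1 hsup
        refine hb_fiber (lc_EQ y F c) (fun p => p.1.getLast?) htO (mono_EQ y F c) (some G) ?_ ?_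
        · intro w hw
          refine hoth w ?_
          rintro G' rfl hex hsup'
          refine hw ?_
          congr 1
          refine SV.ext fun i => ?_
          by_cases hi : G i = 0
          · rw [hi]
            exact (hsup' i).1 ((hsup i).2 hi)
          · have h1 : G' i ≠ 0 := fun h => hi ((hsup i).1 ((hsup' i).2 h))
            rw [(hGy i).resolve_left hi, (hex i).resolve_left h1]
        · rw [fiber_EQ y F c G hG hFG hGy']
          have h1 := interval_HB y G hG hGy' c hb
          rw [hn] at h1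
          refine h1.congr ⟨fun h => ⟨h.down, fun i hi => ?_⟩, fun h => ⟨h.down.1⟩,
            fun _ => rfl, fun _ => rfl⟩
          rcases hFG i with h2 | h2
          · exact h2
          · exact h2.trans ((hsup i).1 hi)
      · have hac : (J (SV ι) (V f y)).Ac (EQ y F c) := by
          refine ac_fibers (lc_EQ y F c) (fun p => p.1.getLast?) htO (mono_EQ y F c) ?_
          intro w
          by_cases hw : ∃ G ∈ Faces f, F ≤ G ∧ G < y.1 ∧ w = some G
          · obtain ⟨G, hG, hFG, hGy, rfl⟩ := hw
            refine hoth _ ?_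
            intro G' e _ hsup
            rw [Option.some.injEq] at e
            subst e
            exact hex ⟨G, hG, hFG, hGy.le, hsup⟩
          · have h2 := fiber_EQ_empty y F c w hw
            show (J (SV ι) (V f y)).Ac (EQ y F c ∩ {p | p.1.getLast? = w})
            rw [h2]
            exact ac_empty
        have : IsEmpty (PLift (good y c ∧ ∀ i, c i ≠ 0 → F i = 0)) := by
          refine ⟨fun h => hex ?_⟩
          obtain ⟨G, hG, hGy, hG0⟩ := h.down.1 1 le_rfl
          refine ⟨G, hG, fun i => ?_, hGy, fun i => ?_⟩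
          · by_cases hi : F i = 0
            · exact Or.inl hi
            · right
              have h1 : G i ≠ 0 := by
                intro h2
                have := (hG0 i).1 h2
                exact hi (h.down.2 i (by omega))
              rw [(hGy i).resolve_left h1, (hFy i).resolve_left hi]
          · rw [hG0]
            omega
        exact hac.hb _ _
    have hD := (split_EP y F c).hb_conn (ac_EP y F hF hFy c) hE
    exact (hb_base (Φ := SV ι) (V f y) (LD y F c) _ _).2 hD

/-! ## All tuples from a tope -/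

theorem cells_eq (y : Topes f) (c : ι → ℕ) (hc : c ≠ 0) : cells f y c = LD y (sgv f 0) c := by
  classical
  have h0 : ∀ i, (sgv f 0 : SV ι) i = 0 := by
    intro i
    show SignType.sign (f i 0) = 0
    rw [map_zero, sign_zero]
  ext l
  constructor
  · rintro ⟨h1, h2⟩
    refine ⟨h1, h2, ?_⟩
    cases l with
    | nil => exact absurd h2.symm hc
    | cons z l =>
      obtain ⟨i, hi⟩ := topes_ne.1 h1.1
      exact ⟨z, l, rfl, i, h0 i, hi⟩
  · rintro ⟨h1, h2, _⟩
    exact ⟨h1, h2⟩

theorem closed_cells (y : Topes f) (c : ι → ℕ) : (V f y).Closed (cells f y c) :=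
  fun _ hl _ hm => ⟨supp_red hm hl.1, (supp_cross hm).trans hl.2⟩

theorem good_zero (y : Topes f) : good y (0 : ι → ℕ) := by
  intro n hn
  refine ⟨y.1, y.2.1, le_rfl, fun i => ?_⟩
  constructor
  · intro h
    exact absurd h (y.2.2 i)
  · intro h
    have : n ≤ 0 := h
    omega

theorem cells_zero (y : Topes f) : cells f y (0 : ι → ℕ) = {[]} := by
  classical
  ext l
  rw [Set.mem_singleton_iff]
  constructor
  · rintro ⟨h1, h2⟩
    cases l with
    | nil => rfl
    | cons z l =>
      exfalso
      obtain ⟨i, hi⟩ := topes_ne.1 h1.1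
      have := congrFun h2 i
      simp only [cross, if_pos hi] at this
      have h3 : (0 : ι → ℕ) i = 0 := rfl
      omega
  · rintro rfl
    exact ⟨trivial, rfl⟩

theorem hb_cells (y : Topes f) (c : ι → ℕ) :
    (V f y).HB (cells f y c) (PLift (good y c)) (degc f c) := by
  classical
  by_cases hc : c = 0
  · subst hc
    rw [cells_zero, degc_zero]
    have h1 := hb_one_cell (C := V f y) ([] : List (Topes f)) (fun h => by
      have := (V f y).hdeg _ _ h
      omega)
    have h2 : (V f y).deg [] = 0 := rfl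
    rw [h2] at h1
    exact h1.congr ⟨fun _ => ⟨good_zero y⟩, fun _ => (), fun _ => rfl, fun _ => rfl⟩
  · rw [cells_eq y c hc]
    have h0 : ∀ i, (sgv f 0 : SV ι) i = 0 := by
      intro i
      show SignType.sign (f i 0) = 0
      rw [map_zero, sign_zero]
    have := hb_LD (∑ i, c i) c hc le_rfl y (sgv f 0) ⟨0, rfl⟩ (fun i => Or.inl (h0 i))
    exact this.congr ⟨fun h => ⟨h.down.1⟩, fun h => ⟨h.down, fun i _ => h0 i⟩, fun _ => rfl,
      fun _ => rfl⟩

variable (f)

theorem main_bad (y : Topes f) (c : ι → ℕ) (h : ¬ good y c)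
    (x : List (Topes f) →₀ ℤ) (hx : x ∈ Finsupp.supported ℤ ℤ (cells f y c)) (hd : dV f y x = 0) :
    ∃ u ∈ Finsupp.supported ℤ ℤ (cells f y c), dV f y u = x := by
  have : IsEmpty (PLift (good y c)) := ⟨fun h' => h h'.down⟩
  have hcl := closed_cells y c
  obtain ⟨u, hu, hu2⟩ := (hb_cells y c).ac x hx (by rw [rel_closed hcl hx]; exact hd)
  exact ⟨u, hu, by rw [rel_closed hcl hu] at hu2; exact hu2⟩

theorem main_good (y : Topes f) (c : ι → ℕ) (h : good y c) :
    ∃ z ∈ Finsupp.supported ℤ ℤ (cells f y c), dV f y z = 0 ∧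
      (∀ l ∈ z.support, l.length = degc f c) ∧
      (∀ x ∈ Finsupp.supported ℤ ℤ (cells f y c), dV f y x = 0 →
        ∃ m : ℤ, ∃ u ∈ Finsupp.supported ℤ ℤ (cells f y c), x = m • z + dV f y u) ∧
      ∀ (m : ℤ), ∀ u ∈ Finsupp.supported ℤ ℤ (cells f y c), m • z = dV f y u → m = 0 := by
  have hcl := closed_cells y c
  have h1 : (V f y).HB (cells f y c) Unit (degc f c) :=
    (hb_cells y c).congr ⟨fun _ => (), fun _ => ⟨h⟩, fun _ => rfl, fun _ => rfl⟩
  obtain ⟨Z, z1, z2, z3, z4⟩ := h1
  have z1' : ∀ m, Z m ∈ sup (cells f y c) := fun m => sup_mono Set.inter_subset_left (z1 m)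
  have hm : ∀ m : Unit →₀ ℤ, m = m () • Finsupp.single () 1 := by
    intro m
    ext
    simp
  refine ⟨Z (Finsupp.single () 1), z1' _, ?_, ?_, ?_, ?_⟩
  · have := z2 (Finsupp.single () 1)
    rw [rel_closed hcl (z1' _)] at this
    exact this
  · intro l hl
    exact (mem_sup_iff.1 (z1 _) l hl).2
  · intro x hx hd
    obtain ⟨m, u, hu, hu2⟩ := z3 x hx (by rw [rel_closed hcl hx]; exact hd)
    refine ⟨m (), u, hu, ?_⟩
    rw [rel_closed hcl hu] at hu2
    rw [← map_smul, ← hm m]
    exact hu2
  · intro m u hu h2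
    have := z4 (m • Finsupp.single () 1) u hu (by rw [rel_closed hcl hu, map_smul]; exact h2)
    have h3 := DFunLike.congr_fun this ()
    simpa using h3

end Pool.Agent.V8H14.MHA
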