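import Pool.Agent.V8H14.MHA.Acy

/-!
# The complex of tuples of topes
-/

set_option autoImplicit false

namespace Pool.Agent.V8H14.MHA

open Cx

variable {E : Type} [AddCommGroup E] [Module ℝ E] {ι : Type} {f : ι → (E →ₗ[ℝ] ℝ)}

/-! ## Signs -/

theorem sign_eq_of_ne {a b c : SignType} (ha : a ≠ 0) (hb : b ≠ 0) (hc : c ≠ 0) (h1 : a ≠ b)
    (h2 : a ≠ c) : b = c := by
  have : ∀ a b c : SignType, ¬ (a ≠ 0 ∧ b ≠ 0 ∧ c ≠ 0 ∧ a ≠ b ∧ a ≠ c ∧ b ≠ c) := by decide
  by_contra h
  exact this a b c ⟨ha, hb, hc, h1, h2, h⟩

theorem four_point (y z x x' : Topes f) :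
    (geo y z x ∧ geo y x x') ↔ (geo z x x' ∧ geo y z x') := by
  simp only [geo, ← forall_and]
  refine forall_congr' fun i => ?_
  have hy := y.2.2 i
  have hz := z.2.2 i
  have hx := x.2.2 i
  have hx' := x'.2.2 i
  revert hy hz hx hx'
  generalize y.1 i = a
  generalize z.1 i = b
  generalize x.1 i = c
  generalize x'.1 i = d
  revert a b c d
  decide

theorem geo_self (y z : Topes f) : geo y y z := fun i h => h.1 rfl

theorem geo.ne {y z x : Topes f} (h : geo y z x) {i : ι} (hi : y.1 i ≠ z.1 i) : y.1 i ≠ x.1 i := by
  intro h1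
  exact h i ⟨hi, fun h2 => hi (h1.trans h2.symm)⟩

theorem topes_ne {y z : Topes f} : y ≠ z ↔ ∃ i, y.1 i ≠ z.1 i := by
  constructor
  · intro h
    by_contra h'
    push Not at h'
    exact h (Subtype.ext (SV.ext h'))
  · rintro ⟨i, hi⟩ rfl
    exact hi rfl

/-! ## The complex -/

open Classical in
/-- The deletion of the first entry. -/
noncomputable def gd (y z : Topes f) (l : List (Topes f)) : List (Topes f) →₀ ℤ :=
  if ∃ x l', l = x :: l' ∧ geo y z x then Finsupp.single l 1 else 0

theorem bV_cons (y z : Topes f) (l : List (Topes f)) :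
    bV y (z :: l) = gd y z l - consL z (bV z l) := rfl

theorem gd_nil (y z : Topes f) : gd y z [] = 0 := by
  rw [gd, if_neg]
  rintro ⟨x, l', h, _⟩
  exact absurd h (by simp)

open Classical in
theorem gd_cons (y z x : Topes f) (l : List (Topes f)) :
    gd y z (x :: l) = if geo y z x then Finsupp.single (x :: l) 1 else 0 := by
  rw [gd]
  refine if_congr ?_ rfl rfl
  constructor
  · rintro ⟨x', l', h1, h2⟩
    rw [List.cons.injEq] at h1
    rw [h1.1]
    exact h2
  · intro h
    exact ⟨x, l, rfl, h⟩

theorem supp_bV {y z : Topes f} {l m : List (Topes f)} (hm : m ∈ (bV y (z :: l)).support) :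
    (m = l ∧ ∃ x l', l = x :: l' ∧ geo y z x) ∨ ∃ m' ∈ (bV z l).support, m = z :: m' := by
  classical
  rw [bV_cons] at hm
  rcases Finset.mem_union.1 (Finsupp.support_sub hm) with h | h
  · rw [gd] at h
    split_ifs at h with h1
    · have := Finsupp.support_single_subset h
      rw [Finset.mem_singleton] at this
      exact Or.inl ⟨this, h1⟩
    · simp at h
  · rw [consL, Finsupp.lmapDomain_apply] at h
    obtain ⟨q, hq, rfl⟩ := Finset.mem_image.1 (Finsupp.mapDomain_support h)
    exact Or.inr ⟨q, hq, rfl⟩

theorem bV_nil (y : Topes f) : bV y [] = 0 := rfl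

theorem supp_len {l : List (Topes f)} : ∀ {y : Topes f} {m : List (Topes f)},
    m ∈ (bV y l).support → m.length + 1 = l.length := by
  induction l with
  | nil =>
    intro y m hm
    rw [bV_nil] at hm
    simp at hm
  | cons z l ih =>
    intro y m hm
    rcases supp_bV hm with ⟨rfl, -⟩ | ⟨m', hm', rfl⟩
    · rfl
    · rw [List.length_cons, List.length_cons, ih hm']

theorem supp_red {l : List (Topes f)} : ∀ {y : Topes f} {m : List (Topes f)},
    m ∈ (bV y l).support → red y l → red y m := by
  induction l with
  | nil =>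
    intro y m hm
    rw [bV_nil] at hm
    simp at hm
  | cons z l ih =>
    intro y m hm hr
    rcases supp_bV hm with ⟨rfl, x, l', rfl, hg⟩ | ⟨m', hm', rfl⟩
    · obtain ⟨i, hi⟩ := topes_ne.1 hr.1
      exact ⟨topes_ne.2 ⟨i, hg.ne hi⟩, hr.2.2⟩
    · exact ⟨hr.1, ih hm' hr.2⟩

theorem supp_cross {l : List (Topes f)} : ∀ {y : Topes f} {m : List (Topes f)},
    m ∈ (bV y l).support → cross y m = cross y l := by
  classical
  induction l with
  | nil =>
    intro y m hm
    rw [bV_nil] at hm
    simp at hm
  | cons z l ih =>
    intro y m hm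
    rcases supp_bV hm with ⟨rfl, x, l', rfl, hg⟩ | ⟨m', hm', rfl⟩
    · funext i
      simp only [cross]
      have h := hg i
      by_cases h1 : y.1 i ≠ z.1 i
      · have h2 : y.1 i ≠ x.1 i := hg.ne h1
        have h3 : ¬ z.1 i ≠ x.1 i := fun h' => h ⟨h1, h'⟩
        rw [if_pos h1, if_pos h2, if_neg h3]
        omega
      · rw [if_neg h1]
        rw [not_not] at h1
        rw [h1]
        omega
    · funext i
      simp only [cross]
      rw [ih hm']

theorem dV_single (y : Topes f) (l : List (Topes f)) (n : ℤ) :
    dV f y (Finsupp.single l n) = n • bV y l := Finsupp.linearCombination_single ℤ n l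

theorem dV_consL (y z : Topes f) (x : List (Topes f) →₀ ℤ) :
    dV f y (consL z x) = Finsupp.linearCombination ℤ (gd y z) x - consL z (dV f z x) := by
  induction x using Finsupp.induction_linear with
  | zero => simp
  | add a b ha hb =>
    rw [map_add, map_add, map_add, map_add, map_add, ha, hb]
    abel
  | single l n =>
    rw [consL, Finsupp.lmapDomain_apply, Finsupp.mapDomain_single, dV_single, dV_single, bV_cons,
      Finsupp.linearCombination_single, map_smul, smul_sub]
    rfl

theorem dV_bV (l : List (Topes f)) : ∀ y : Topes f, dV f y (bV y l) = 0 := by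
  classical
  induction l with
  | nil => intro y; rw [bV_nil, map_zero]
  | cons z l ih =>
    intro y
    rw [bV_cons, map_sub, dV_consL, ih z, map_zero, sub_zero]
    cases l with
    | nil => rw [gd_nil, bV_nil, map_zero, map_zero, sub_zero]
    | cons x l =>
      rw [bV_cons, map_sub]
      have e1 : Finsupp.linearCombination ℤ (gd y z) (consL x (bV x l)) =
          if geo y z x then consL x (bV x l) else 0 := by
        have : ∀ w : List (Topes f) →₀ ℤ, Finsupp.linearCombination ℤ (gd y z) (consL x w) =
            if geo y z x then consL x w else 0 := by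
          intro w
          induction w using Finsupp.induction_linear with
          | zero => simp
          | add a b ha hb =>
            rw [map_add, map_add, ha, hb]
            split_ifs
            · rfl
            · rw [add_zero]
          | single m n =>
            rw [consL, Finsupp.lmapDomain_apply, Finsupp.mapDomain_single,
              Finsupp.linearCombination_single, gd_cons]
            split_ifs
            · simp
            · simp
        exact this _
      have e2 : Finsupp.linearCombination ℤ (gd y z) (gd z x l) =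
          if geo y z x then gd y x l else 0 := by
        cases l with
        | nil =>
          rw [gd_nil, gd_nil, map_zero]
          simp
        | cons x' l =>
          rw [gd_cons, gd_cons]
          have h4 := four_point y z x x'
          by_cases h1 : geo z x x'
          · rw [if_pos h1, Finsupp.linearCombination_single, one_smul, gd_cons]
            by_cases h2 : geo y z x'
            · obtain ⟨h5, h6⟩ := h4.2 ⟨h1, h2⟩
              rw [if_pos h2, if_pos h5, if_pos h6]
            · rw [if_neg h2]
              by_cases h5 : geo y z x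
              · rw [if_pos h5, if_neg fun h6 => h2 (h4.1 ⟨h5, h6⟩).2]
              · rw [if_neg h5]
          · rw [if_neg h1, map_zero]
            by_cases h5 : geo y z x
            · rw [if_pos h5, if_neg fun h6 => h1 (h4.1 ⟨h5, h6⟩).1]
            · rw [if_neg h5]
      rw [e1, e2, gd_cons]
      split_ifs with h
      · rw [dV_single, one_smul, bV_cons, sub_self]
      · simp

variable (f) in
/-- The complex of the tuples starting at `y`. -/
noncomputable def V (y : Topes f) : Cx (List (Topes f)) where
  b := bV y
  deg := List.length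
  sq l := dV_bV l y
  hdeg _ _ hm := supp_len hm

theorem V_b (y : Topes f) (l : List (Topes f)) : (V f y).b l = bV y l := rfl

/-! ## Sets of tuples -/

/-- The tuples `(y, z, ...)` with crossing vector `c` such that some hyperplane containing `F`
separates `y` and `z`. -/
def LD (y : Topes f) (F : SV ι) (c : ι → ℕ) : Set (List (Topes f)) :=
  {l | red y l ∧ cross y l = c ∧ ∃ z l', l = z :: l' ∧ ∃ i, F i = 0 ∧ y.1 i ≠ z.1 i}

/-- The tuples `(y, z, ...)` with crossing vector `c` such that all hyperplanes containing `G`
separate `y` and `z`. -/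
def LN (y : Topes f) (G : SV ι) (c : ι → ℕ) : Set (List (Topes f)) :=
  {l | red y l ∧ cross y l = c ∧ ∃ z l', l = z :: l' ∧ ∀ i, G i = 0 → y.1 i ≠ z.1 i}

/-- The tuples `(w, z, ...)` with crossing vector `c`, with `z = w` allowed. -/
def LP (w : Topes f) (c : ι → ℕ) : Set (List (Topes f)) :=
  {l | cross w l = c ∧ ∃ z l', l = z :: l' ∧ red z l'}

theorem closed_LD (y : Topes f) (F : SV ι) (c : ι → ℕ) : (V f y).Closed (LD y F c) := by
  rintro l ⟨h1, h2, z, l', rfl, i, hi, hi2⟩ m hm
  refine ⟨supp_red hm h1, (supp_cross hm).trans h2, ?_⟩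
  rcases supp_bV hm with ⟨rfl, x, l'', rfl, hg⟩ | ⟨m', hm', rfl⟩
  · exact ⟨x, l'', rfl, i, hi, hg.ne hi2⟩
  · exact ⟨z, m', rfl, i, hi, hi2⟩

theorem closed_LN (y : Topes f) (F : SV ι) (c : ι → ℕ) : (V f y).Closed (LN y F c) := by
  rintro l ⟨h1, h2, z, l', rfl, hi⟩ m hm
  refine ⟨supp_red hm h1, (supp_cross hm).trans h2, ?_⟩
  rcases supp_bV hm with ⟨rfl, x, l'', rfl, hg⟩ | ⟨m', hm', rfl⟩
  · exact ⟨x, l'', rfl, fun i h => hg.ne (hi i h)⟩
  · exact ⟨z, m', rfl, hi⟩

theorem closed_LP (w : Topes f) (c : ι → ℕ) : (V f w).Closed (LP w c) := by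
  rintro l ⟨h2, z, l', rfl, hr⟩ m hm
  refine ⟨(supp_cross hm).trans h2, ?_⟩
  rcases supp_bV hm with ⟨rfl, x, l'', rfl, hg⟩ | ⟨m', hm', rfl⟩
  · exact ⟨x, l'', rfl, hr.2⟩
  · exact ⟨z, m', rfl, supp_red hm' hr⟩

theorem ac_LP (w : Topes f) (c : ι → ℕ) (hc : c ≠ 0) : (V f w).Ac (LP w c) := by
  classical
  let g : List (Topes f) → (List (Topes f) →₀ ℤ) := fun l =>
    if l.head? = some w then 0 else Finsupp.single (w :: l) 1
  let H : (List (Topes f) →₀ ℤ) →ₗ[ℤ] (List (Topes f) →₀ ℤ) := Finsupp.linearCombination ℤ g
  have Hs : ∀ l, H (Finsupp.single l 1) = g l := fun l => by simp [H]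
  have hcons : ∀ y : List (Topes f) →₀ ℤ, (∀ l ∈ y.support, l.head? ≠ some w) → H y = consL w y := by
    intro y hy
    have hy' : y ∈ Submodule.span ℤ
        ((fun a => Finsupp.single a (1 : ℤ)) '' {l : List (Topes f) | l.head? ≠ some w}) := by
      rw [← Finsupp.supported_eq_span_single]
      exact mem_sup_iff.2 hy
    clear hy
    induction hy' using Submodule.span_induction with
    | mem y hy =>
      obtain ⟨l, hl, rfl⟩ := hy
      simp only [Hs]
      simp only [g]
      rw [if_neg hl, consL, Finsupp.lmapDomain_apply, Finsupp.mapDomain_single]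
    | zero => simp
    | add y z _ _ hy hz => rw [map_add, map_add, hy, hz]
    | smul a y _ hy => rw [map_smul, map_smul, hy]
  have hkill : ∀ y : List (Topes f) →₀ ℤ, H (consL w y) = 0 := by
    intro y
    induction y using Finsupp.induction_linear with
    | zero => simp
    | add a b ha hb => rw [map_add, map_add, ha, hb, add_zero]
    | single l n =>
      rw [consL, Finsupp.lmapDomain_apply, Finsupp.mapDomain_single]
      have h3 : Finsupp.single (w :: l) n = n • Finsupp.single (w :: l) (1 : ℤ) := by simp
      rw [h3, map_smul, Hs]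
      simp [g]
  have key : ∀ l ∈ LP w c, (dV f w (g l) + H (bV w l) = Finsupp.single l 1) ∧ g l ∈ sup (LP w c) := by
    rintro l ⟨h2, z, l', rfl, hr⟩
    by_cases hh : z = w
    · subst hh
      -- `l'` is not empty
      cases l' with
      | nil =>
        exfalso
        apply hc
        rw [← h2]
        funext i
        simp [cross]
      | cons x l'' =>
        have h1 : g (z :: x :: l'') = 0 := by simp [g]
        have h3 : (x :: l'').head? ≠ some z := by
          simp only [List.head?_cons, ne_eq, Option.some.injEq]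
          exact fun h => hr.1 h.symm
        refine ⟨?_, by rw [h1]; exact Submodule.zero_mem _⟩
        rw [h1, map_zero, zero_add, bV_cons, map_sub, hkill, sub_zero, gd_cons,
          if_pos (geo_self z x), Hs]
        simp only [g, if_neg h3]
    · have h3 : (z :: l').head? ≠ some w := by
        simp only [List.head?_cons, ne_eq, Option.some.injEq]
        exact hh
      have h1 : g (z :: l') = Finsupp.single (w :: z :: l') 1 := by simp only [g, if_neg h3]
      refine ⟨?_, ?_⟩
      · rw [h1, dV_single, one_smul, bV_cons, gd_cons, if_pos (geo_self w z), hcons]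
        · abel
        · intro m hm
          rcases supp_bV hm with ⟨rfl, x, l'', rfl, hg⟩ | ⟨m', hm', rfl⟩
          · simp only [List.head?_cons, ne_eq, Option.some.injEq]
            rintro rfl
            obtain ⟨i, hi⟩ := topes_ne.1 (Ne.symm hh)
            exact hg.ne hi rfl
          · simp only [List.head?_cons, ne_eq, Option.some.injEq]
            exact hh
      · rw [h1]
        refine single_mem ?_ 1
        refine ⟨?_, w, z :: l', rfl, Ne.symm hh, hr⟩
        rw [← h2]
        funext i
        simp [cross]
  intro x hx hd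
  rw [rel_closed (closed_LP w c) hx] at hd
  have key2 : dV f w (H x) + H (dV f w x) = x ∧ H x ∈ sup (LP w c) := by
    have hx' : x ∈ Submodule.span ℤ ((fun a => Finsupp.single a (1 : ℤ)) '' (LP w c)) := by
      rwa [← Finsupp.supported_eq_span_single]
    clear hx hd
    induction hx' using Submodule.span_induction with
    | mem y hy =>
      obtain ⟨l, hl, rfl⟩ := hy
      have : dV f w (Finsupp.single l (1 : ℤ)) = bV w l := by rw [dV_single, one_smul]
      simp only [Hs, this]
      exact key l hl
    | zero => simp
    | add y z _ _ hy hz =>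
      refine ⟨?_, by rw [map_add]; exact Submodule.add_mem _ hy.2 hz.2⟩
      rw [map_add, map_add, map_add, map_add]
      nth_rw 3 [← hy.1]
      nth_rw 3 [← hz.1]
      abel
    | smul a y _ hy =>
      refine ⟨?_, by rw [map_smul]; exact Submodule.smul_mem _ _ hy.2⟩
      rw [map_smul, map_smul, map_smul, map_smul, ← smul_add, hy.1]
  refine ⟨H x, key2.2, ?_⟩
  rw [rel_closed (closed_LP w c) key2.2]
  have h1 := key2.1
  have h2 : dV f w x = 0 := hd
  rw [h2, map_zero, add_zero] at h1
  exact h1

end Pool.Agent.V8H14.MHA
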